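import Pool.Agent.DelPezzo.Blowup

set_option autoImplicit false

universe u

open CategoryTheory AlgebraicGeometry Limits TopologicalSpace

namespace Pool.Agent.DelPezzo

variable {X Y Z : Scheme.{u}}

open Scheme.IdealSheafData in
lemma vanishingIdeal_mul_of_disjoint (Z Z' : Closeds X) (h : ∀ x ∈ Z, x ∉ Z') :
    vanishingIdeal Z * vanishingIdeal Z' = vanishingIdeal (Z ⊔ Z') := by
  rw [vanishingIdeal_sup]
  have h1 : vanishingIdeal Z ⊔ vanishingIdeal Z' = ⊤ := by
    rw [← support_eq_bot_iff, support_sup]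
    ext x
    constructor
    · rintro ⟨h1, h2⟩
      exact (h x h1 h2).elim
    · intro h
      exact h.elim
  ext U : 2
  rw [ideal_mul, ideal_inf, Pi.mul_apply, Pi.inf_apply]
  apply Ideal.mul_eq_inf_of_coprime
  have := congrArg (fun J => J.ideal U) h1
  simpa using this

open Scheme.IdealSheafData in
lemma support_vanishingIdeal (Z : Closeds X) : (vanishingIdeal Z).support = Z := by
  ext x
  simp

open Scheme.IdealSheafData in
lemma eq_vanishingIdeal_iff (I : X.IdealSheafData) (Z : Closeds X) :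
    I = vanishingIdeal Z ↔ I.radical = I ∧ I.support = Z := by
  constructor
  · rintro rfl
    constructor
    · rw [← vanishingIdeal_support, support_vanishingIdeal]
    · exact support_vanishingIdeal Z
  · rintro ⟨h1, rfl⟩
    rw [vanishingIdeal_support, h1]

open Scheme.IdealSheafData in
lemma comap_radical_of_isOpenImmersion (I : Y.IdealSheafData) (j : X ⟶ Y) [IsOpenImmersion j] :
    (I.comap j).radical = I.radical.comap j := by
  ext U : 2
  rw [radical_ideal, ideal_comap_of_isOpenImmersion, ideal_comap_of_isOpenImmersion, radical_ideal,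
    Ideal.comap_radical]

open Scheme.IdealSheafData in
lemma comap_vanishingIdeal_of_isOpenImmersion (Z : Closeds Y) (j : X ⟶ Y) [IsOpenImmersion j] :
    (vanishingIdeal Z).comap j = vanishingIdeal (Z.preimage j.continuous) := by
  rw [eq_vanishingIdeal_iff, comap_radical_of_isOpenImmersion, support_comap,
    support_vanishingIdeal]
  exact ⟨by rw [((eq_vanishingIdeal_iff _ Z).mp rfl).1], rfl⟩

lemma ideal_eq_of_comap_ι_eq {I J : X.IdealSheafData}
    (h : ∀ x : X, ∃ V : X.Opens, x ∈ V ∧ I.comap V.ι = J.comap V.ι) : I = J := by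
  apply ideal_ext_of_forall_mem
  intro x
  obtain ⟨V, hxV, hV⟩ := h x
  obtain ⟨_, ⟨U, hU, rfl⟩, hxU, -⟩ :=
    V.toScheme.isBasis_affineOpens.exists_subset_of_mem_open
      (Set.mem_univ (⟨x, hxV⟩ : V.toScheme)) isOpen_univ
  refine ⟨⟨V.ι ''ᵁ U, hU.image_of_isOpenImmersion _⟩, ⟨⟨x, hxV⟩, hxU, rfl⟩, ?_⟩
  have h1 := congrArg (fun J => J.ideal ⟨U, hU⟩) hV
  simp only [Scheme.IdealSheafData.ideal_comap_of_isOpenImmersion] at h1
  refine Ideal.comap_injective_of_surjective _ ?_ h1
  exact (V.ι.appIso U).symm.commRingCatIsoToRingEquiv.surjective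

open Scheme.IdealSheafData in
/-- The pull-back of a reduced closed subscheme `Z` along a morphism which is an isomorphism over
a neighbourhood of `Z` is reduced. -/
lemma comap_vanishingIdeal_of_isIso (Z : Closeds Y) (b : X ⟶ Y) (V : Y.Opens)
    (hV : ∀ y ∈ Z, y ∈ V) [IsIso (b ∣_ V)] :
    (vanishingIdeal Z).comap b = vanishingIdeal (Z.preimage b.continuous) := by
  apply ideal_eq_of_comap_ι_eq
  intro x
  by_cases hx : b x ∈ Z
  · refine ⟨b ⁻¹ᵁ V, hV _ hx, ?_⟩
    have h1 : IsOpenImmersion ((b ⁻¹ᵁ V).ι ≫ b) := by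
      rw [← morphismRestrict_ι]
      infer_instance
    rw [← Scheme.IdealSheafData.comap_comp, comap_vanishingIdeal_of_isOpenImmersion,
      comap_vanishingIdeal_of_isOpenImmersion]
    rfl
  · let W : Y.Opens := ⟨_, Z.isClosed.isOpen_compl⟩
    refine ⟨b ⁻¹ᵁ W, hx, ?_⟩
    have h1 : ((vanishingIdeal Z).comap b).comap (b ⁻¹ᵁ W).ι = ⊤ := by
      rw [comap_eq_top_iff]
      intro y hy
      rw [support_comap, support_vanishingIdeal] at hy
      exact y.2 hy
    have h2 : (vanishingIdeal (Z.preimage b.continuous)).comap (b ⁻¹ᵁ W).ι = ⊤ := by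
      rw [comap_eq_top_iff]
      intro y hy
      rw [support_vanishingIdeal] at hy
      exact y.2 hy
    rw [h1, h2]

end Pool.Agent.DelPezzo
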