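import Pool.Agent.DelPezzo.Coordinates
import Pool.Agent.DelPezzo.VanishingIdeal

set_option autoImplicit false

universe u

open CategoryTheory AlgebraicGeometry Limits TopologicalSpace

namespace Pool.Agent.DelPezzo

section

variable (k K : Type u) [Field k] [Field K] [Algebra k K]

/-- base change of affine spaces -/
noncomputable abbrev Aff.map (m : ℕ) : Aff K m ⟶ Aff k m :=
  Spec.map (CommRingCat.ofHom (MvPolynomial.map (algebraMap k K)))

attribute [local instance] MvPolynomial.algebraMvPolynomial in
lemma Aff.isPullback (m : ℕ) :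
    IsPullback (Aff.map k K m) (Aff.toSpec K m) (Aff.toSpec k m) (iSpec k K) := by
  have h := CommRingCat.isPushout_of_isPushout k K (MvPolynomial (Fin m) k) (MvPolynomial (Fin m) K)
  exact (isPullback_SpecMap_of_isPushout _ _ _ _ h).flip

end

lemma dense_range_of_isPullback {X Y X' Y' : Scheme.{u}} {f : X ⟶ Y} {g : Y' ⟶ Y} {f' : X' ⟶ Y'}
    {g' : X' ⟶ X} (sq : IsPullback g' f' f g) (hg : IsOpenMap g) (hf : IsDominant f) :
    IsDominant f' := by
  constructor
  have h1 : Set.range f' = g ⁻¹' (Set.range f) := by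
    ext y
    constructor
    · rintro ⟨x, rfl⟩
      refine ⟨g' x, ?_⟩
      rw [← Scheme.Hom.comp_apply, sq.w, Scheme.Hom.comp_apply]
    · rintro ⟨x, hx⟩
      obtain ⟨z, hz1, hz2⟩ := Scheme.Pullback.exists_preimage_pullback x y hx
      refine ⟨sq.isoPullback.inv z, ?_⟩
      rw [← Scheme.Hom.comp_apply, sq.isoPullback_inv_snd]
      exact hz2
  rw [DenseRange, h1]
  rw [dense_iff_closure_eq, ← hg.preimage_closure_eq_closure_preimage g.continuous,
    f.denseRange.closure_eq]
  rfl

end Pool.Agent.DelPezzo
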