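import Pool.Agent.DelPezzo.IdealComap

set_option autoImplicit false

universe u

open CategoryTheory AlgebraicGeometry Limits TopologicalSpace

namespace Pool.Agent.DelPezzo

variable {X Y Z : Scheme.{u}}

lemma comap_eq_top_iff (I : Y.IdealSheafData) (f : X ⟶ Y) :
    I.comap f = ⊤ ↔ ∀ x : X, f x ∉ I.support := by
  rw [← Scheme.IdealSheafData.support_eq_bot_iff, Scheme.IdealSheafData.support_comap]
  constructor
  · intro h x hx
    have : x ∈ (I.support.preimage f.continuous : Closeds X) := hx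
    rw [h] at this
    exact this
  · intro h
    ext x
    constructor
    · intro hx
      exact (h x hx).elim
    · intro hx
      exact hx.elim

lemma isInvertibleIdeal_mul {I J : X.IdealSheafData} (hI : IsInvertibleIdeal I)
    (hJ : IsInvertibleIdeal J) : IsInvertibleIdeal (I * J) := by
  intro x
  obtain ⟨U, hxU, f, hf, hfU⟩ := hI x
  obtain ⟨W, hxW, hWU, g, hg, hgW⟩ := hJ.exists_basicOpen x U.1 hxU
  have hfl : (X.presheaf.map (homOfLE hWU).op).hom.Flat := by
    have := HasRingHomProperty.appLE @Flat (𝟙 X) inferInstance U W hWU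
    have h2 : (𝟙 X : X ⟶ X).appLE U.1 W.1 hWU = X.presheaf.map (homOfLE hWU).op := by
      simp only [Scheme.Hom.appLE, Scheme.Hom.id_app]
      exact Category.id_comp _
    rwa [h2] at this
  refine ⟨W, hxW, (X.presheaf.map (homOfLE hWU).op).hom f * g, mul_mem ?_ hg, ?_⟩
  · algebraize [(X.presheaf.map (homOfLE hWU).op).hom]
    have h1 := Module.Flat.isSMulRegular_of_nonZeroDivisors (M := Γ(X, W.1)) hf
    rw [mem_nonZeroDivisors_iff_right]
    intro y hy
    apply h1
    simp only [smul_zero]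
    rw [Algebra.smul_def, RingHom.algebraMap_toAlgebra, mul_comm]
    exact hy
  · rw [Scheme.IdealSheafData.ideal_mul, Pi.mul_apply, hgW, ← I.map_ideal hWU, hfU,
      Ideal.map_span, Set.image_singleton, Ideal.span_singleton_mul_span_singleton]
    rfl

/-- Blow-ups commute with flat base change. -/
lemma IsBlowup.of_isPullback {X' Y' : Scheme.{u}} {π : Y ⟶ X} {I : X.IdealSheafData}
    (h : IsBlowup π I) {π' : Y' ⟶ X'} {g' : Y' ⟶ Y} {g : X' ⟶ X} (sq : IsPullback g' π' π g)
    [Flat g] : IsBlowup π' (I.comap g) := by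
  have : Flat g' := MorphismProperty.of_isPullback sq.flip inferInstance
  constructor
  · rw [← Scheme.IdealSheafData.comap_comp, ← sq.w, Scheme.IdealSheafData.comap_comp]
    exact h.isInvertible.comap_of_flat g'
  · intro T f hf
    rw [← Scheme.IdealSheafData.comap_comp] at hf
    obtain ⟨t, ht, huniq⟩ := h.existsUnique (f ≫ g) hf
    refine ⟨sq.lift t f ht, sq.lift_snd _ _ _, ?_⟩
    intro t' ht'
    apply sq.hom_ext
    · rw [sq.lift_fst]
      apply huniq
      rw [Category.assoc, sq.w, ← Category.assoc, ht']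
    · rw [sq.lift_snd, ht']

/-- A blow-up is an isomorphism away from its centre. -/
lemma IsBlowup.isIso_morphismRestrict {π : Y ⟶ X} {I : X.IdealSheafData} (h : IsBlowup π I)
    (V : X.Opens) (hV : ∀ x ∈ V, x ∉ I.support) : IsIso (π ∣_ V) := by
  have h1 : I.comap V.ι = ⊤ := by
    rw [comap_eq_top_iff]
    intro x
    exact hV _ x.2
  obtain ⟨g, hg, -⟩ := h.existsUnique V.ι (isInvertibleIdeal_of_eq_top h1)
  have h2 : I.comap ((π ⁻¹ᵁ V).ι ≫ π) = ⊤ := by
    rw [comap_eq_top_iff]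
    intro x
    exact hV _ x.2
  obtain ⟨g2, -, hg2⟩ := h.existsUnique ((π ⁻¹ᵁ V).ι ≫ π) (isInvertibleIdeal_of_eq_top h2)
  have h3 : (π ∣_ V) ≫ g = (π ⁻¹ᵁ V).ι := by
    rw [hg2 ((π ∣_ V) ≫ g) (by simp only [Category.assoc, hg, morphismRestrict_ι]), ← hg2 _ rfl]
  have hr : Set.range g ⊆ Set.range (π ⁻¹ᵁ V).ι := by
    rintro _ ⟨x, rfl⟩
    rw [Scheme.Opens.range_ι]
    change π (g x) ∈ V
    rw [← Scheme.Hom.comp_apply, hg]
    exact x.2
  refine ⟨IsOpenImmersion.lift (π ⁻¹ᵁ V).ι g hr, ?_, ?_⟩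
  · rw [← cancel_mono (π ⁻¹ᵁ V).ι, Category.assoc, IsOpenImmersion.lift_fac, h3, Category.id_comp]
  · rw [← cancel_mono V.ι, Category.assoc, morphismRestrict_ι, IsOpenImmersion.lift_fac_assoc, hg,
      Category.id_comp]

lemma isInvertibleIdeal_of_cover {J : X.IdealSheafData}
    (h : ∀ x : X, ∃ V : X.Opens, x ∈ V ∧ IsInvertibleIdeal (J.comap V.ι)) :
    IsInvertibleIdeal J := by
  intro x
  obtain ⟨V, hxV, hV⟩ := h x
  obtain ⟨U, hxU, f, hf, hfU⟩ := hV ⟨x, hxV⟩
  have e : U.1 ≤ V.ι ⁻¹ᵁ (V.ι ''ᵁ U.1) := by rw [Scheme.Hom.preimage_image_eq]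
  have hc := comap_ideal J V.ι U ⟨V.ι ''ᵁ U.1, U.2.image_of_isOpenImmersion _⟩ e
  have hiso : IsIso (V.ι.appLE (V.ι ''ᵁ U.1) U.1 e) := by
    rw [← Scheme.Hom.appIso_hom']
    infer_instance
  let φ := (asIso (V.ι.appLE (V.ι ''ᵁ U.1) U.1 e)).commRingCatIsoToRingEquiv
  have hφ : (φ : Γ(X, V.ι ''ᵁ U.1) →+* Γ(V, U.1)) = (V.ι.appLE (V.ι ''ᵁ U.1) U.1 e).hom := rfl
  refine ⟨⟨V.ι ''ᵁ U.1, U.2.image_of_isOpenImmersion _⟩, ⟨⟨x, hxV⟩, hxU, rfl⟩, φ.symm f, ?_, ?_⟩
  · exact MulEquivClass.map_nonZeroDivisors φ.symm ▸ ⟨f, hf, rfl⟩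
  · rw [← hφ, hfU] at hc
    have := congrArg (Ideal.map (φ.symm : Γ(V, U.1) →+* Γ(X, V.ι ''ᵁ U.1))) hc
    rw [Ideal.map_map, Ideal.map_span, Set.image_singleton] at this
    rw [RingEquiv.symm_comp, Ideal.map_id] at this
    exact this.symm

/-- Blowing up `J` after `I`, with disjoint centres, is blowing up `I * J`. -/
lemma IsBlowup.comp {b : Y ⟶ X} {c : Z ⟶ Y} {I J : X.IdealSheafData} (hb : IsBlowup b I)
    (hc : IsBlowup c (J.comap b)) (hd : ∀ x, x ∈ I.support → x ∉ J.support) :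
    IsBlowup (c ≫ b) (I * J) := by
  constructor
  · rw [comap_mul]
    apply isInvertibleIdeal_mul
    · apply isInvertibleIdeal_of_cover
      intro z
      by_cases hz : c z ∈ (J.comap b).support
      · refine ⟨c ⁻¹ᵁ (b ⁻¹ᵁ ⟨_, I.support.isClosed.isOpen_compl⟩), ?_, ?_⟩
        · intro hI
          rw [Scheme.IdealSheafData.support_comap] at hz
          exact hd _ hI hz
        · apply isInvertibleIdeal_of_eq_top
          rw [← Scheme.IdealSheafData.comap_comp, comap_eq_top_iff]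
          intro x
          exact x.2
      · let V : Y.Opens := ⟨_, (J.comap b).support.isClosed.isOpen_compl⟩
        refine ⟨c ⁻¹ᵁ V, hz, ?_⟩
        have hiso := hc.isIso_morphismRestrict V (fun x hx => hx)
        rw [Scheme.IdealSheafData.comap_comp, ← Scheme.IdealSheafData.comap_comp,
          ← morphismRestrict_ι, Scheme.IdealSheafData.comap_comp]
        exact (hb.isInvertible.comap_of_flat _).comap_of_flat _
    · rw [Scheme.IdealSheafData.comap_comp]
      exact hc.isInvertible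
  · intro T f hf
    rw [comap_mul] at hf
    obtain ⟨t, ht, htu⟩ := hb.existsUnique f (isInvertibleIdeal_of_mul_left hf)
    have hf2 := isInvertibleIdeal_of_mul_right hf
    rw [← ht, Scheme.IdealSheafData.comap_comp] at hf2
    obtain ⟨s, hs, hsu⟩ := hc.existsUnique t hf2
    refine ⟨s, by simp only [← Category.assoc, hs, ht], ?_⟩
    intro s' hs'
    apply hsu
    apply htu
    rw [Category.assoc, hs']

end Pool.Agent.DelPezzo
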