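import Pool.Agent.DelPezzo.Plane

set_option autoImplicit false

universe u

open CategoryTheory AlgebraicGeometry Limits TopologicalSpace

namespace Pool.Agent.DelPezzo

variable {K : Type u} [Field K]

lemma eval₂_mul_of_isHomogeneous {σ R S : Type*} [CommSemiring R] [CommSemiring S] (f : R →+* S)
    (u : S) (w : σ → S) {n : ℕ} {F : MvPolynomial σ R} (hF : F.IsHomogeneous n) :
    MvPolynomial.eval₂ f (fun i => u * w i) F = u ^ n * MvPolynomial.eval₂ f w F := by
  rw [MvPolynomial.eval₂_eq, MvPolynomial.eval₂_eq, Finset.mul_sum]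
  refine Finset.sum_congr rfl fun d hd => ?_
  have h1 : ∏ i ∈ d.support, u ^ d i = u ^ n := by
    rw [Finset.prod_pow_eq_pow_sum]
    congr 1
    have := hF (MvPolynomial.mem_support_iff.mp hd)
    rw [← this]
    simp [Finsupp.weight_apply, Finsupp.sum]
  simp_rw [mul_pow]
  rw [Finset.prod_mul_distrib, h1]
  ring

lemma X_mem_gr (i : Fin 3) : (MvPolynomial.X i : MvPolynomial (Fin 3) K) ∈ gr K 1 :=
  MvPolynomial.isHomogeneous_X K i

/-- the localization `K[x₀,x₁,x₂][1/x₀]` -/
abbrev LocX (K : Type u) [Field K] : Type u :=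
  Localization (Submonoid.powers (MvPolynomial.X 0 : MvPolynomial (Fin 3) K))

lemma algebraMap_mul_val {n : ℕ} {F : MvPolynomial (Fin 3) K} (hF : F ∈ gr K n) :
    algebraMap (MvPolynomial (Fin 3) K) (LocX K) (MvPolynomial.X 0) ^ n *
      algebraMap (HomogeneousLocalization.Away (gr K) (MvPolynomial.X 0)) (LocX K)
        (HomogeneousLocalization.Away.isLocalizationElem (X_mem_gr (K := K) 0) hF) =
      algebraMap (MvPolynomial (Fin 3) K) (LocX K) F := by
  rw [HomogeneousLocalization.algebraMap_apply, HomogeneousLocalization.Away.val_mk,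
    Localization.mk_eq_mk', ← map_pow, IsLocalization.mul_mk'_eq_mk'_of_mul,
    IsLocalization.mk'_eq_iff_eq_mul, ← map_mul]
  congr 1
  simp only [pow_one]
  ring

/-- The element `F / x₀ ^ n` of the homogeneous localization is obtained by substituting
`xᵢ / x₀` for `xᵢ`. -/
lemma isLocalizationElem_eq {n : ℕ} {F : MvPolynomial (Fin 3) K} (hF : F ∈ gr K n) :
    HomogeneousLocalization.Away.isLocalizationElem (X_mem_gr (K := K) 0) hF =
    MvPolynomial.eval₂ ((HomogeneousLocalization.fromZeroRingHom (gr K)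
      (Submonoid.powers (MvPolynomial.X 0))).comp (algebraMap K (gr K 0)))
      (fun i => HomogeneousLocalization.Away.isLocalizationElem (X_mem_gr (K := K) 0)
        (X_mem_gr i)) F := by
  apply HomogeneousLocalization.val_injective
  rw [← HomogeneousLocalization.algebraMap_apply, ← HomogeneousLocalization.algebraMap_apply,
    MvPolynomial.hom_eval₂]
  have hu : IsUnit (algebraMap (MvPolynomial (Fin 3) K) (LocX K) (MvPolynomial.X 0)) :=
    IsLocalization.map_units (LocX K) (⟨MvPolynomial.X 0, Submonoid.mem_powers _⟩ :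
      Submonoid.powers (MvPolynomial.X 0 : MvPolynomial (Fin 3) K))
  apply (hu.pow n).mul_left_cancel
  rw [← eval₂_mul_of_isHomogeneous _ _ _ hF, algebraMap_mul_val hF]
  have h1 : ∀ i : Fin 3, algebraMap (MvPolynomial (Fin 3) K) (LocX K) (MvPolynomial.X 0) *
      algebraMap (HomogeneousLocalization.Away (gr K) (MvPolynomial.X 0)) (LocX K)
        (HomogeneousLocalization.Away.isLocalizationElem (X_mem_gr (K := K) 0) (X_mem_gr i)) =
      algebraMap (MvPolynomial (Fin 3) K) (LocX K) (MvPolynomial.X i) := by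
    intro i
    rw [← algebraMap_mul_val (X_mem_gr i), pow_one]
  have h2 : (fun i => algebraMap (MvPolynomial (Fin 3) K) (LocX K) (MvPolynomial.X 0) *
      algebraMap (HomogeneousLocalization.Away (gr K) (MvPolynomial.X 0)) (LocX K)
        (HomogeneousLocalization.Away.isLocalizationElem (X_mem_gr (K := K) 0) (X_mem_gr i))) =
      fun i => algebraMap (MvPolynomial (Fin 3) K) (LocX K) (MvPolynomial.X i) := funext h1
  have h3 : (algebraMap (HomogeneousLocalization.Away (gr K) (MvPolynomial.X 0)) (LocX K)).comp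
      ((HomogeneousLocalization.fromZeroRingHom (gr K) (Submonoid.powers (MvPolynomial.X 0))).comp
        (algebraMap K (gr K 0))) = (algebraMap (MvPolynomial (Fin 3) K) (LocX K)).comp
          MvPolynomial.C := by
    ext c
    simp only [RingHom.comp_apply, HomogeneousLocalization.algebraMap_apply]
    rfl
  have h4 := MvPolynomial.hom_eval₂ (f := (MvPolynomial.C : K →+* MvPolynomial (Fin 3) K)) F
    (algebraMap (MvPolynomial (Fin 3) K) (LocX K)) MvPolynomial.X
  rw [MvPolynomial.eval₂_eta] at h4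
  rw [h4]
  exact (congrArg₂ (fun a b => MvPolynomial.eval₂ a b F) h3 h2).symm

/-- A morphism from an affine scheme to the chart `x₀ ≠ 0` of the plane is given by coordinates. -/
lemma exists_coordinates {B : Type u} [CommRing B] [Algebra K B] (ρ : Spec (.of B) ⟶ P2 K)
    (hρ : ρ ≫ P2.toSpec K = Spec.map (CommRingCat.ofHom (algebraMap K B)))
    (hx : ∀ z, ρ z ∈ Proj.basicOpen (gr K) (MvPolynomial.X 0)) :
    ∃ g : Fin 3 → B, g 0 = 1 ∧ ∀ (n : ℕ) (F : MvPolynomial (Fin 3) K), 0 < n → F.IsHomogeneous n →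
      ∀ z : Spec (.of B), (ρ z ∈ Proj.basicOpen (gr K) F ↔
        MvPolynomial.aeval g F ∉ z.asIdeal) := by
  let j := Proj.awayι (gr K) (MvPolynomial.X 0) (X_mem_gr 0) zero_lt_one
  have hr : Set.range ρ ⊆ Set.range j := by
    rintro _ ⟨z, rfl⟩
    have := Proj.opensRange_awayι (gr K) (MvPolynomial.X 0) (X_mem_gr 0) zero_lt_one
    have h2 := hx z
    rw [← this] at h2
    exact h2
  let θ' := IsOpenImmersion.lift j ρ hr
  have hθ' : θ' ≫ j = ρ := IsOpenImmersion.lift_fac _ _ _
  obtain ⟨θ, hθ⟩ := Spec.map_surjective θ'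
  have hK : θ.hom.comp ((HomogeneousLocalization.fromZeroRingHom (gr K)
      (Submonoid.powers (MvPolynomial.X 0))).comp (algebraMap K (gr K 0))) = algebraMap K B := by
    rw [← hθ', ← hθ, P2.toSpec, Category.assoc] at hρ
    have h1 := Proj.awayι_toSpecZero (gr K) (MvPolynomial.X 0) (X_mem_gr 0) zero_lt_one
    rw [reassoc_of% h1, ← Spec.map_comp, ← Spec.map_comp] at hρ
    have h2 := congrArg CommRingCat.Hom.hom (Spec.map_injective hρ)
    exact h2
  refine ⟨fun i => θ.hom (HomogeneousLocalization.Away.isLocalizationElem (X_mem_gr (K := K) 0)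
        (X_mem_gr i)), ?_, ?_⟩
  · have h1 : HomogeneousLocalization.Away.isLocalizationElem (X_mem_gr (K := K) 0)
        (X_mem_gr 0) = 1 := by
      apply HomogeneousLocalization.val_injective
      rw [HomogeneousLocalization.Away.val_mk, HomogeneousLocalization.val_one]
      exact Localization.mk_self (⟨MvPolynomial.X 0 ^ 1, ⟨1, rfl⟩⟩ :
        Submonoid.powers (MvPolynomial.X 0 : MvPolynomial (Fin 3) K))
    change θ.hom _ = 1
    rw [h1, map_one]
  · intro n F hn hF z
    have h1 := isLocalizationElem_eq (K := K) (F := F) (n := n) hF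
    have h2 := congrArg θ.hom h1
    rw [MvPolynomial.hom_eval₂, hK] at h2
    have h3 := Proj.awayι_preimage_basicOpen (gr K) (X_mem_gr (K := K) 0) zero_lt_one
      (g := F) hF hn
    have h4 : ρ z ∈ Proj.basicOpen (gr K) F ↔ θ' z ∈ j ⁻¹ᵁ Proj.basicOpen (gr K) F := by
      rw [← hθ']
      rfl
    rw [h4, h3, ← hθ]
    rw [MvPolynomial.aeval_def, ← h2]
    rfl

end Pool.Agent.DelPezzo
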