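import Pool.Agent.DelPezzo.Reduced

set_option autoImplicit false

universe u

open CategoryTheory AlgebraicGeometry Limits TopologicalSpace TensorProduct

namespace Pool.Agent.DelPezzo

lemma GenPos.comp {K : Type u} [Field K] {ι ι' : Type*} {v : ι → Fin 3 → K} (hv : GenPos v)
    (e : ι' ↪ ι) : GenPos (v ∘ e) where
  ne_zero _ := hv.ne_zero _
  distinct _ _ hij c := hv.distinct _ _ (fun h => hij (e.injective h)) c
  line e' F hF h := hv.line (e'.trans e) F hF h
  conic e' F hF h := hv.conic (e'.trans e) F hF h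
  cubic e' F hF h h' := hv.cubic (e'.trans e) F hF h h'

lemma mem_ptClosed {K : Type u} [Field K] {ι : Type*} [Finite ι] (v : ι → Fin 3 → K)
    (hv : ∀ i, v i ≠ 0) (x : P2 K) : x ∈ ptClosed v hv ↔ ∃ i, x = pt (v i) (hv i) := by
  constructor
  · rintro ⟨i, hi⟩
    exact ⟨i, hi.symm⟩
  · rintro ⟨i, hi⟩
    exact ⟨i, hi.symm⟩

instance flat_iSpec (k K : Type u) [Field k] [Field K] [Algebra k K] : Flat (iSpec k K) := by
  have h : (CommRingCat.ofHom (algebraMap k K)).hom.Flat := by
    rw [CommRingCat.hom_ofHom]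
    exact RingHom.flat_algebraMap_iff.mpr inferInstance
  exact (HasRingHomProperty.Spec_iff (P := @Flat)).mpr h

theorem isSplitDelPezzo_of_isBlowup {k : Type u} [Field k] (K : Type u) [Field K] [Algebra k K]
    {X : Scheme.{u}} (sX : X ⟶ Spec (.of k)) {r d n : ℕ} (v : Fin r → Fin 3 → K) (hv : GenPos v)
    (b : pullback sX (iSpec k K) ⟶ P2 K) (hrd : r + d = 9)
    (hb : b ≫ P2.toSpec K = pullback.snd sX (iSpec k K))
    (hblow : IsBlowup b (Scheme.IdealSheafData.vanishingIdeal (ptClosed v hv.ne_zero)))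
    {E : Type} [Fintype E] (hE : Fintype.card E = n) (hn : n < d) (w : E → Fin 3 → K)
    (hvw : GenPos (Sum.elim v w)) (hw : ∀ e, w e ≠ 0)
    (M : Finset X) (hM : ∀ x ∈ M, IsClosed ({x} : Set X))
    (hsep : ∀ x ∈ M, IsSeparablePoint sX x) (hfin : ∀ x ∈ M, 0 < pointDegree sX x)
    (hMw : ∀ z : ↥(pullback sX (iSpec k K)), pullback.fst sX (iSpec k K) z ∈ M ↔
      b z ∈ ptClosed w hw)
    {Y : Scheme.{u}} (π : Y ⟶ X)
    (hπ : IsBlowup π (Scheme.IdealSheafData.vanishingIdeal ⟨M, isClosed_finset M hM⟩)) :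
    IsSplitDelPezzo (pullback.snd (π ≫ sX) (iSpec k K)) (d - n) := by
  let πK : pullback (π ≫ sX) (iSpec k K) ⟶ pullback sX (iSpec k K) :=
    pullback.lift (pullback.fst (π ≫ sX) (iSpec k K) ≫ π) (pullback.snd (π ≫ sX) (iSpec k K))
      (by rw [Category.assoc, pullback.condition])
  have sq : IsPullback (pullback.fst (π ≫ sX) (iSpec k K)) πK π (pullback.fst sX (iSpec k K)) := by
    have h1 := IsPullback.of_hasPullback (π ≫ sX) (iSpec k K)
    have h2 : πK ≫ pullback.snd sX (iSpec k K) = pullback.snd (π ≫ sX) (iSpec k K) :=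
      pullback.lift_snd _ _ _
    rw [← h2] at h1
    exact IsPullback.of_bot h1 (pullback.lift_fst _ _ _).symm
      (IsPullback.of_hasPullback sX (iSpec k K))
  have hB := hπ.of_isPullback sq
  rw [comap_vanishingIdeal_finset K sX M hM hsep hfin] at hB
  have hdisj : ∀ x ∈ ptClosed v hv.ne_zero, x ∉ ptClosed w hw := by
    intro x hx hx'
    obtain ⟨i, hi⟩ := (mem_ptClosed _ _ _).mp hx
    obtain ⟨e, he⟩ := (mem_ptClosed _ _ _).mp hx'
    obtain ⟨c, hc⟩ := exists_smul_of_pt_eq _ _ (hi.symm.trans he)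
    exact hvw.distinct (Sum.inl i) (Sum.inr e) (by simp) c hc
  let V : (P2 K).Opens := ⟨(ptClosed v hv.ne_zero : Set (P2 K))ᶜ,
    (ptClosed v hv.ne_zero).isClosed.isOpen_compl⟩
  have hiso : IsIso (b ∣_ V) := by
    apply hblow.isIso_morphismRestrict
    intro x hx
    rw [support_vanishingIdeal]
    exact hx
  have hpre : (⟨M, isClosed_finset M hM⟩ : Closeds X).preimage
      (pullback.fst sX (iSpec k K)).continuous = (ptClosed w hw).preimage b.continuous := by
    ext z
    exact hMw z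
  rw [hpre, ← comap_vanishingIdeal_of_isIso (ptClosed w hw) b V
    (fun y hy hy' => hdisj y hy' hy)] at hB
  have hcomp := hblow.comp hB (by
    intro x hx
    rw [support_vanishingIdeal] at hx ⊢
    exact hdisj x hx)
  rw [vanishingIdeal_mul_of_disjoint _ _ hdisj] at hcomp
  refine ⟨by omega, r + n, ?_⟩
  let ε : Fin (r + n) ≃ Fin r ⊕ E :=
    finSumFinEquiv.symm.trans (Equiv.sumCongr (Equiv.refl _) (Fintype.equivFinOfCardEq hE).symm)
  refine ⟨Sum.elim v w ∘ ε, hvw.comp ε.toEmbedding, πK ≫ b, by omega, ?_, ?_⟩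
  · rw [Category.assoc, hb]
    exact pullback.lift_snd _ _ _
  · convert hcomp using 2
    ext x
    change x ∈ ptClosed _ _ ↔ (x ∈ ptClosed v hv.ne_zero ∨ x ∈ ptClosed w hw)
    rw [mem_ptClosed, mem_ptClosed, mem_ptClosed]
    constructor
    · rintro ⟨i, hi⟩
      rcases hεi : ε i with j | e
      · left
        refine ⟨j, ?_⟩
        rw [hi]
        congr 1
        rw [Function.comp_apply, hεi, Sum.elim_inl]
      · right
        refine ⟨e, ?_⟩
        rw [hi]
        congr 1
        rw [Function.comp_apply, hεi, Sum.elim_inr]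
    · rintro (⟨j, hj⟩ | ⟨e, he⟩)
      · refine ⟨ε.symm (Sum.inl j), ?_⟩
        rw [hj]
        congr 1
        rw [Function.comp_apply, ε.apply_symm_apply, Sum.elim_inl]
      · refine ⟨ε.symm (Sum.inr e), ?_⟩
        rw [he]
        congr 1
        rw [Function.comp_apply, ε.apply_symm_apply, Sum.elim_inr]

end Pool.Agent.DelPezzo
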