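import Mathlib

/-!
# Definitions for closed points in general position on unirational del Pezzo surfaces

This file has all the definitions used in the statement of the main theorem, together with the
facts needed to make sense of them (the points of the projective plane are closed).
-/

set_option autoImplicit false

universe u

open CategoryTheory AlgebraicGeometry Limits TopologicalSpace

namespace Pool.Agent.DelPezzo

/-! ### Blow-ups -/

section blowup

variable {X Y : Scheme.{u}}

/-- An ideal sheaf is invertible if locally it is generated by one non-zero-divisor, i.e. if it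
is the ideal sheaf of an effective Cartier divisor. -/
def IsInvertibleIdeal (J : X.IdealSheafData) : Prop :=
  ∀ x : X, ∃ U : X.affineOpens, x ∈ U.1 ∧
    ∃ f ∈ nonZeroDivisors Γ(X, U.1), J.ideal U = Ideal.span {f}

/-- `π : Y ⟶ X` is the blow-up of `X` along the (closed subscheme defined by the) ideal sheaf
`I`: the inverse image ideal sheaf is invertible, and `π` is universal with this property. -/
structure IsBlowup (π : Y ⟶ X) (I : X.IdealSheafData) : Prop where
  isInvertible : IsInvertibleIdeal (I.comap π)
  existsUnique : ∀ {T : Scheme.{u}} (f : T ⟶ X), IsInvertibleIdeal (I.comap f) →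
    ∃! g : T ⟶ Y, g ≫ π = f

end blowup

/-! ### The projective plane and its points -/

/-- The standard grading of `K[x₀, x₁, x₂]`. -/
abbrev gr (K : Type u) [Field K] : ℕ → Submodule K (MvPolynomial (Fin 3) K) :=
  MvPolynomial.homogeneousSubmodule (Fin 3) K

noncomputable instance instGradedAlgebraGr (K : Type u) [Field K] : GradedAlgebra (gr K) :=
  MvPolynomial.gradedAlgebra

/-- The projective plane over `K`. -/
noncomputable abbrev P2 (K : Type u) [Field K] : Scheme.{u} := Proj (gr K)

/-- The structure morphism of the projective plane over `K`. -/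
noncomputable def P2.toSpec (K : Type u) [Field K] : P2 K ⟶ Spec (.of K) :=
  Proj.toSpecZero (gr K) ≫ Spec.map (CommRingCat.ofHom (algebraMap K (gr K 0)))

variable {K : Type u} [Field K]

/-- The homogeneous ideal of the point with homogeneous coordinates `v`. -/
noncomputable def ptIdeal (v : Fin 3 → K) : HomogeneousIdeal (gr K) :=
  Ideal.homogeneousCore (gr K) (RingHom.ker (MvPolynomial.eval v))

lemma mem_ptIdeal_iff {v : Fin 3 → K} {n : ℕ} {F : MvPolynomial (Fin 3) K}
    (hF : F.IsHomogeneous n) : F ∈ ptIdeal v ↔ MvPolynomial.eval v F = 0 := by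
  constructor
  · intro h
    have := Ideal.toIdeal_homogeneousCore_le (gr K) (RingHom.ker (MvPolynomial.eval v)) h
    exact this
  · intro h
    exact Ideal.mem_homogeneousCore_of_homogeneous_of_mem ⟨n, hF⟩ h

/-- The point of the projective plane with homogeneous coordinates `v`. -/
noncomputable def pt (v : Fin 3 → K) (hv : v ≠ 0) : P2 K where
  asHomogeneousIdeal := ptIdeal v
  isPrime := Ideal.IsPrime.homogeneousCore (RingHom.ker_isPrime _)
  not_irrelevant_le := by
    intro h
    apply hv
    ext i
    have h1 : (MvPolynomial.X i : MvPolynomial (Fin 3) K) ∈ ptIdeal v := by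
      apply h
      exact HomogeneousIdeal.mem_irrelevant_of_mem (gr K) zero_lt_one
        (MvPolynomial.isHomogeneous_X K i)
    rw [mem_ptIdeal_iff (MvPolynomial.isHomogeneous_X K i), MvPolynomial.eval_X] at h1
    exact h1

lemma pt_mem_basicOpen {v : Fin 3 → K} (hv : v ≠ 0) {n : ℕ} {F : MvPolynomial (Fin 3) K}
    (hF : F.IsHomogeneous n) :
    pt v hv ∈ Proj.basicOpen (gr K) F ↔ MvPolynomial.eval v F ≠ 0 := by
  rw [Ne, ← mem_ptIdeal_iff hF]
  rfl

lemma homogeneousIdeal_le {I J : HomogeneousIdeal (gr K)}
    (h : ∀ (n : ℕ) (F : MvPolynomial (Fin 3) K), F.IsHomogeneous n → F ∈ I → F ∈ J) : I ≤ J := by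
  intro F hF
  classical
  have h1 : ∀ n, (DirectSum.decompose (gr K) F n : MvPolynomial (Fin 3) K) ∈ I :=
    fun n => I.isHomogeneous n hF
  have h2 : ∀ n, (DirectSum.decompose (gr K) F n : MvPolynomial (Fin 3) K) ∈ J :=
    fun n => h n _ (DirectSum.decompose (gr K) F n).2 (h1 n)
  rw [← DirectSum.sum_support_decompose (gr K) F]
  exact J.toIdeal.sum_mem fun n _ => h2 n

lemma X_notMem (x : P2 K) : ∃ i : Fin 3, (MvPolynomial.X i : MvPolynomial (Fin 3) K) ∉
    (show ProjectiveSpectrum (gr K) from x).asHomogeneousIdeal := by
  by_contra hcon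
  push Not at hcon
  apply (show ProjectiveSpectrum (gr K) from x).not_irrelevant_le
  change (HomogeneousIdeal.irrelevant (gr K)).toIdeal ≤
    (show ProjectiveSpectrum (gr K) from x).asHomogeneousIdeal.toIdeal
  have hsp : Ideal.span (MvPolynomial.X '' Set.univ) ≤
      (show ProjectiveSpectrum (gr K) from x).asHomogeneousIdeal.toIdeal := by
    rw [Ideal.span_le]
    rintro _ ⟨i, -, rfl⟩
    exact hcon i
  refine le_trans (b := Ideal.span (MvPolynomial.X '' Set.univ)) ?_ hsp
  intro F hF
  rw [MvPolynomial.mem_ideal_span_X_image]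
  intro m hm
  by_contra hcon2
  push Not at hcon2
  have hm0 : m = 0 := by
    ext i
    exact hcon2 i (Set.mem_univ _)
  replace hF : F ∈ HomogeneousIdeal.irrelevant (gr K) := hF
  rw [HomogeneousIdeal.mem_irrelevant_iff] at hF
  rw [hm0, MvPolynomial.mem_support_iff] at hm
  apply hm
  have h3 := congrArg (MvPolynomial.coeff 0) hF
  rw [MvPolynomial.coeff_zero] at h3
  have h4 : (GradedRing.proj (gr K) 0) F = MvPolynomial.homogeneousComponent 0 F := by
    rw [GradedRing.proj_apply]
    exact MvPolynomial.decomposition.decompose'_apply F 0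
  rw [h4, MvPolynomial.coeff_homogeneousComponent] at h3
  simpa using h3

lemma eq_pt_of_le {v : Fin 3 → K} (hv : v ≠ 0) (x : P2 K)
    (h : ptIdeal v ≤ (show ProjectiveSpectrum (gr K) from x).asHomogeneousIdeal) :
    x = pt v hv := by
  apply ProjectiveSpectrum.ext
  apply le_antisymm _ h
  apply homogeneousIdeal_le
  intro n F hF hFx
  rw [mem_ptIdeal_iff hF]
  by_contra hne
  obtain ⟨i, hi⟩ := X_notMem x
  apply hi
  have h1 : MvPolynomial.C (MvPolynomial.eval v F) * MvPolynomial.X i ^ n
      - MvPolynomial.C (v i ^ n) * F ∈ ptIdeal v := by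
    rw [mem_ptIdeal_iff (n := n)]
    · simp [mul_comm]
    · apply MvPolynomial.IsHomogeneous.sub
      · apply MvPolynomial.IsHomogeneous.C_mul
        exact MvPolynomial.isHomogeneous_X_pow i n
      · exact MvPolynomial.IsHomogeneous.C_mul hF _
  have h2 := h h1
  have h3 : MvPolynomial.C (MvPolynomial.eval v F) * MvPolynomial.X i ^ n ∈
      (show ProjectiveSpectrum (gr K) from x).asHomogeneousIdeal.toIdeal := by
    have h4 := Ideal.add_mem _ h2 (Ideal.mul_mem_left _ (MvPolynomial.C (v i ^ n)) hFx)
    simpa using h4
  have hp := (show ProjectiveSpectrum (gr K) from x).isPrime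
  rcases hp.mem_or_mem h3 with h5 | h5
  · exfalso
    apply hp.ne_top
    apply Ideal.eq_top_of_isUnit_mem _ h5
    exact (isUnit_iff_ne_zero.mpr hne).map MvPolynomial.C
  · exact hp.mem_of_pow_mem _ h5

lemma isClosed_pt {v : Fin 3 → K} (hv : v ≠ 0) : IsClosed ({pt v hv} : Set (P2 K)) := by
  rw [← closure_eq_iff_isClosed]
  apply Set.Subset.antisymm _ subset_closure
  intro y hy
  apply eq_pt_of_le hv
  exact (ProjectiveSpectrum.le_iff_mem_closure (gr K) (pt v hv) y).mpr hy

/-! ### Base change and affine space -/

section base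

variable (k K : Type u) [Field k] [Field K] [Algebra k K]

/-- `Spec K ⟶ Spec k` -/
noncomputable abbrev iSpec : Spec (.of K) ⟶ Spec (.of k) :=
  Spec.map (CommRingCat.ofHom (algebraMap k K))

/-- affine space of dimension `m` -/
noncomputable abbrev Aff (k : Type u) [Field k] (m : ℕ) : Scheme.{u} :=
  Spec (.of (MvPolynomial (Fin m) k))

/-- structure morphism of affine space -/
noncomputable abbrev Aff.toSpec (k : Type u) [Field k] (m : ℕ) : Aff k m ⟶ Spec (.of k) :=
  Spec.map (CommRingCat.ofHom MvPolynomial.C)

end base

/-! ### Del Pezzo surfaces -/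

/-- A finite family of points `v i` of the projective plane (given by homogeneous coordinates) is in
*general position* (in the sense of the theory of del Pezzo surfaces) if the points are distinct,
no three of them lie on a line, no six of them lie on a conic, and no cubic passes through eight of
them and is singular at one of these eight. -/
structure GenPos {K : Type u} [Field K] {ι : Type*} (v : ι → Fin 3 → K) : Prop where
  /-- the homogeneous coordinate vectors are nonzero -/
  ne_zero : ∀ i, v i ≠ 0
  /-- the points are pairwise distinct -/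
  distinct : ∀ i j, i ≠ j → ∀ c : K, v i ≠ c • v j
  /-- no three of the points lie on a line -/
  line : ∀ (e : Fin 3 ↪ ι) (F : MvPolynomial (Fin 3) K), F.IsHomogeneous 1 →
    (∀ t, MvPolynomial.eval (v (e t)) F = 0) → F = 0
  /-- no six of the points lie on a conic -/
  conic : ∀ (e : Fin 6 ↪ ι) (F : MvPolynomial (Fin 3) K), F.IsHomogeneous 2 →
    (∀ t, MvPolynomial.eval (v (e t)) F = 0) → F = 0
  /-- no cubic passes through eight of the points and is singular at one of these eight -/
  cubic : ∀ (e : Fin 8 ↪ ι) (F : MvPolynomial (Fin 3) K), F.IsHomogeneous 3 →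
    (∀ t, MvPolynomial.eval (v (e t)) F = 0) →
    (∀ j, MvPolynomial.eval (v (e 0)) (MvPolynomial.pderiv j F) = 0) → F = 0

/-- The closed subset of the plane consisting of the points with homogeneous coordinates `v i`. -/
noncomputable def ptClosed {K : Type u} [Field K] {ι : Type*} [Finite ι] (v : ι → Fin 3 → K)
    (hv : ∀ i, v i ≠ 0) : Closeds (P2 K) where
  carrier := Set.range fun i => pt (v i) (hv i)
  isClosed' := by
    rw [← Set.iUnion_singleton_eq_range]
    exact isClosed_iUnion_of_finite fun i => isClosed_pt (hv i)

/-- `Y` (with structure morphism `s : Y ⟶ Spec K`) is the blow-up of the projective plane over `K`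
in `9 - d` points in general position, where `1 ≤ d ≤ 9`. -/
def IsSplitDelPezzo {K : Type u} [Field K] {Y : Scheme.{u}} (s : Y ⟶ Spec (.of K)) (d : ℕ) :
    Prop :=
  1 ≤ d ∧ ∃ (r : ℕ) (v : Fin r → Fin 3 → K) (hv : GenPos v) (b : Y ⟶ P2 K),
    r + d = 9 ∧ b ≫ P2.toSpec K = s ∧
      IsBlowup b (Scheme.IdealSheafData.vanishingIdeal (ptClosed v hv.ne_zero))

/-- `X` (with structure morphism `sX : X ⟶ Spec k`) is a del Pezzo surface of degree `d`
over the field `k`, geometrically isomorphic to a blow-up of the projective plane. -/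
def IsDelPezzo {k : Type u} [Field k] {X : Scheme.{u}} (sX : X ⟶ Spec (.of k)) (d : ℕ) : Prop :=
  IsSplitDelPezzo (pullback.snd sX (iSpec k (AlgebraicClosure k))) d

/-- `X` is unirational over `k`: there is a dominant rational map from some affine space to `X`,
defined over `k`. -/
def IsUnirational {k : Type u} [Field k] {X : Scheme.{u}} (sX : X ⟶ Spec (.of k)) : Prop :=
  ∃ (m : ℕ) (U : (Aff k m).Opens) (φ : U.toScheme ⟶ X),
    φ ≫ sX = U.ι ≫ Aff.toSpec k m ∧ IsDominant φ

section residue

variable {k : Type u} [Field k] {X : Scheme.{u}} (sX : X ⟶ Spec (.of k)) (x : X)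

/-- The ring homomorphism `k → κ(x)` for a point `x` of a scheme over `k`. -/
noncomputable def residueHom : k →+* X.residueField x :=
  (Spec.preimage (X.fromSpecResidueField x ≫ sX)).hom

lemma spec_residueHom : Spec.map (CommRingCat.ofHom (residueHom sX x)) =
    X.fromSpecResidueField x ≫ sX := by
  rw [residueHom, CommRingCat.ofHom_hom, Spec.map_preimage]

/-- The degree `[κ(x) : k]` of a point `x` of a scheme over `k`. -/
noncomputable def pointDegree : ℕ :=
  letI := (residueHom sX x).toAlgebra
  Module.finrank k (X.residueField x)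

/-- The residue field `κ(x)` is a separable (algebraic) extension of `k`. -/
def IsSeparablePoint : Prop :=
  letI := (residueHom sX x).toAlgebra
  Algebra.IsSeparable k (X.residueField x)

end residue

/-- A finite set `M` of closed points of a surface `X` over `k` is in general position (with
respect to being a del Pezzo surface of degree `d`) if the blow-up of `X` along the reduced closed
subscheme `M` is a del Pezzo surface of degree `e`. -/
def InGeneralPosition {k : Type u} [Field k] {X : Scheme.{u}} (sX : X ⟶ Spec (.of k)) (e : ℕ)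
    (M : Closeds X) : Prop :=
  ∀ (Y : Scheme.{u}) (π : Y ⟶ X), IsBlowup π (Scheme.IdealSheafData.vanishingIdeal M) →
    IsDelPezzo (π ≫ sX) e

end Pool.Agent.DelPezzo
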