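import Pool.Agent.DelPezzo.OnePoint
import Pool.Agent.DelPezzo.Core

set_option autoImplicit false

universe u

namespace Pool.Agent.DelPezzo

open MvPolynomial

variable {K : Type u} [Field K]

lemma GenPos.smul {ι : Type*} {v : ι → Fin 3 → K} (hv : GenPos v) (c : ι → K)
    (hc : ∀ i, c i ≠ 0) : GenPos (fun i => c i • v i) where
  ne_zero i := smul_ne_zero (hc i) (hv.ne_zero i)
  distinct i j hij t h := by
    apply hv.distinct i j hij ((c i)⁻¹ * (t * c j))
    rw [mul_smul, mul_smul, ← h, smul_smul, inv_mul_cancel₀ (hc i), one_smul]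
  line e F hF h := by
    apply hv.line e F hF
    intro t
    have := h t
    rw [eval_smul_of_isHomogeneous hF, mul_eq_zero] at this
    exact this.resolve_left (pow_ne_zero _ (hc _))
  conic e F hF h := by
    apply hv.conic e F hF
    intro t
    have := h t
    rw [eval_smul_of_isHomogeneous hF, mul_eq_zero] at this
    exact this.resolve_left (pow_ne_zero _ (hc _))
  cubic e F hF h h' := by
    apply hv.cubic e F hF
    · intro t
      have := h t
      rw [eval_smul_of_isHomogeneous hF, mul_eq_zero] at this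
      exact this.resolve_left (pow_ne_zero _ (hc _))
    · intro j
      have := h' j
      rw [eval_smul_of_isHomogeneous (n := 2) (hF.pderiv), mul_eq_zero] at this
      exact this.resolve_left (pow_ne_zero _ (hc _))

lemma GenPos.of_smul {ι : Type*} {v : ι → Fin 3 → K} (c : ι → K) (hc : ∀ i, c i ≠ 0)
    (hv : GenPos (fun i => c i • v i)) : GenPos v := by
  have := hv.smul (fun i => (c i)⁻¹) (fun i => inv_ne_zero (hc i))
  convert this using 1
  ext i a
  simp [hc i]

lemma restr_zero_of_isHomogeneous [Infinite K] (u : Fin 3 → K) {n : ℕ}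
    {F : MvPolynomial (Fin 3) K} (hF : F.IsHomogeneous n) :
    restr 0 u F = Polynomial.C (eval u F) * Polynomial.X ^ n := by
  apply Polynomial.funext
  intro t
  rw [eval_restr, zero_add, eval_smul_of_isHomogeneous hF, Polynomial.eval_mul, Polynomial.eval_C,
    Polynomial.eval_pow, Polynomial.eval_X, mul_comm]

lemma coeff_restr_zero [Infinite K] (u : Fin 3 → K) (F : MvPolynomial (Fin 3) K) (n : ℕ) :
    (restr 0 u F).coeff n = eval u (homogeneousComponent n F) := by
  have h1 : restr 0 u F = ∑ i ∈ Finset.range (F.totalDegree + 1),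
      Polynomial.C (eval u (homogeneousComponent i F)) * Polynomial.X ^ i := by
    conv_lhs => rw [← sum_homogeneousComponent F]
    rw [restr, map_sum]
    exact Finset.sum_congr rfl fun i _ =>
      restr_zero_of_isHomogeneous u (homogeneousComponent_isHomogeneous i F)
  rw [h1, Polynomial.finsetSum_coeff]
  simp only [Polynomial.coeff_C_mul_X_pow]
  rw [Finset.sum_ite_eq]
  split_ifs with h
  · rfl
  · rw [homogeneousComponent_eq_zero, map_zero]
    simp at h
    omega

lemma exists_smul_eval_ne_zero [Infinite K] {G : MvPolynomial (Fin 3) K} {n : ℕ} {u : Fin 3 → K}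
    (h : eval u (homogeneousComponent n G) ≠ 0) : ∃ t : K, t ≠ 0 ∧ eval (t • u) G ≠ 0 := by
  have h1 : restr 0 u G * Polynomial.X ≠ 0 := by
    refine mul_ne_zero ?_ Polynomial.X_ne_zero
    intro h0
    apply h
    rw [← coeff_restr_zero, h0, Polynomial.coeff_zero]
  obtain ⟨t, ht⟩ : ∃ t, (restr 0 u G * Polynomial.X).eval t ≠ 0 := by
    by_contra hcon
    push Not at hcon
    exact h1 (Polynomial.funext fun w => by rw [hcon w, Polynomial.eval_zero])
  rw [Polynomial.eval_mul, Polynomial.eval_X, eval_restr, zero_add, mul_ne_zero_iff] at ht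
  exact ⟨t, ht.2, ht.1⟩

lemma exists_homogeneousComponent_ne_zero {G : MvPolynomial (Fin 3) K} (hG : G ≠ 0) :
    ∃ n, homogeneousComponent n G ≠ 0 := by
  by_contra hcon
  push Not at hcon
  apply hG
  rw [← sum_homogeneousComponent G]
  exact Finset.sum_eq_zero fun i _ => hcon i

section

variable [Infinite K] {m : ℕ} (h : MvPolynomial (Fin m) K) (hh : h ≠ 0)
  (ψ : Fin 3 → MvPolynomial (Fin m) K)
  (hψ : ∀ (n : ℕ) (F : MvPolynomial (Fin 3) K), 0 < n → F.IsHomogeneous n → F ≠ 0 →
        aeval ψ F ≠ 0)

include hh hψ in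
lemma exists_eval_ne_zero {G : MvPolynomial (Fin 3) K} (hG : G ≠ 0) :
    ∃ (a : Fin m → K) (t : K), t ≠ 0 ∧ eval a h ≠ 0 ∧ eval (t • fun i => eval a (ψ i)) G ≠ 0 := by
  obtain ⟨n, hn⟩ := exists_homogeneousComponent_ne_zero hG
  have h1 : aeval ψ (homogeneousComponent n G) ≠ 0 := by
    rcases Nat.eq_zero_or_pos n with rfl | hpos
    · rw [homogeneousComponent_zero] at hn ⊢
      rw [aeval_C, algebraMap_eq]
      simpa using hn
    · exact hψ n _ hpos (homogeneousComponent_isHomogeneous n G) hn
  have h2 : h * aeval ψ (homogeneousComponent n G) ≠ 0 := mul_ne_zero hh h1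
  obtain ⟨a, ha⟩ : ∃ a, eval a (h * aeval ψ (homogeneousComponent n G)) ≠ 0 := by
    by_contra hcon
    push Not at hcon
    exact h2 (MvPolynomial.funext fun w => by rw [hcon w, map_zero])
  rw [map_mul, mul_ne_zero_iff] at ha
  have h3 : eval a (aeval ψ (homogeneousComponent n G)) =
      eval (fun i => eval a (ψ i)) (homogeneousComponent n G) := by
    rw [aeval_def, hom_eval₂, eval, coe_eval₂Hom]
    congr 1
    ext x
    simp
  rw [h3] at ha
  obtain ⟨t, ht, ht'⟩ := exists_smul_eval_ne_zero ha.2
  exact ⟨a, t, ht, ha.1, ht'⟩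

include hh hψ in
/-- Points in general position can be found in the image of a dominant rational map. -/
lemma exists_genPos {ι : Type} [Finite ι] {v : ι → Fin 3 → K} (hv : GenPos v) (E : Type)
    [Finite E] : ∃ a : E → Fin m → K, (∀ e, eval (a e) h ≠ 0) ∧
      GenPos (Sum.elim v (fun e i => eval (a e) (ψ i))) := by
  induction E using Finite.induction_empty_option with
  | of_equiv e ih =>
    obtain ⟨a, ha, ha'⟩ := ih
    refine ⟨fun x => a (e.symm x), fun x => ha _, ?_⟩
    have := ha'.comp (Equiv.sumCongr (Equiv.refl ι) e.symm).toEmbedding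
    convert this using 1
    ext (i | x) j
    · rfl
    · rfl
  | h_empty =>
    refine ⟨fun e => e.elim, fun e => e.elim, ?_⟩
    have := hv.comp (Equiv.sumEmpty ι PEmpty).toEmbedding
    convert this using 1
    ext (i | x) j
    · rfl
    · exact x.elim
  | h_option ih =>
    rename_i E' hE'
    obtain ⟨a, ha, ha'⟩ := ih
    obtain ⟨G, hG, hG'⟩ := ha'.exists_extend
    obtain ⟨b, t, ht, hb, hbG⟩ := exists_eval_ne_zero h hh ψ hψ hG
    have h1 := hG' _ hbG
    have h2 : GenPos (fun o : Option (ι ⊕ E') => o.elim (fun i => eval b (ψ i))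
        (Sum.elim v (fun e i => eval (a e) (ψ i)))) := by
      apply GenPos.of_smul (fun o => o.elim t fun _ => 1)
      · rintro (_ | _)
        · exact ht
        · exact one_ne_zero
      · convert h1 using 1
        ext (_ | _) j
        · rfl
        · simp
    refine ⟨fun o => o.elim b a, ?_, ?_⟩
    · rintro (_ | e)
      · exact hb
      · exact ha e
    · let ε : ι ⊕ Option E' ↪ Option (ι ⊕ E') :=
        ⟨Sum.elim (fun i => some (Sum.inl i)) (fun o => o.elim none fun e => some (Sum.inr e)), by
          rintro (i | _ | e) (j | _ | f) hij <;> simp_all⟩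
      have h3 := h2.comp ε
      convert h3 using 1
      ext (i | _ | e) j
      · rfl
      · rfl
      · rfl

end

end Pool.Agent.DelPezzo
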