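import Pool.Agent.DelPezzo.Parametrization

set_option autoImplicit false

universe u

open CategoryTheory AlgebraicGeometry Limits TopologicalSpace TensorProduct

namespace Pool.Agent.DelPezzo

variable {k : Type u} [Field k] (K : Type u) [Field K] [Algebra k K]
variable {X : Scheme.{u}} (sX : X ⟶ Spec (.of k))

section

variable {L : Type u} [Field L] [Algebra k L] (f : Spec (.of L) ⟶ X)
  (hf : f ≫ sX = Spec.map (CommRingCat.ofHom (algebraMap k L)))

/-- The `K`-point of `X_K` attached to an `L`-point of `X` and an embedding of `L` into `K`. -/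
noncomputable def conjPt (σ : L →ₐ[k] K) : Spec (.of K) ⟶ pullback sX (iSpec k K) :=
  pullback.lift (Spec.map (CommRingCat.ofHom σ.toRingHom) ≫ f) (𝟙 _) (by
    rw [Category.assoc, hf, ← Spec.map_comp, ← CommRingCat.ofHom_comp, Category.id_comp]
    congr 2
    exact σ.comp_algebraMap)

@[reassoc (attr := simp)]
lemma conjPt_fst (σ : L →ₐ[k] K) : conjPt K sX f hf σ ≫ pullback.fst sX (iSpec k K) =
    Spec.map (CommRingCat.ofHom σ.toRingHom) ≫ f := pullback.lift_fst _ _ _

@[reassoc (attr := simp)]
lemma conjPt_snd (σ : L →ₐ[k] K) : conjPt K sX f hf σ ≫ pullback.snd sX (iSpec k K) = 𝟙 _ :=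
  pullback.lift_snd _ _ _

/-- The base change to `K` of an `L`-point. -/
noncomputable def conjAll : Spec (.of (K ⊗[k] L)) ⟶ pullback sX (iSpec k K) :=
  pullback.lift (Spec.map (CommRingCat.ofHom
      (Algebra.TensorProduct.includeRight : L →ₐ[k] K ⊗[k] L).toRingHom) ≫ f)
    (Spec.map (CommRingCat.ofHom Algebra.TensorProduct.includeLeftRingHom)) (by
      rw [Category.assoc, hf, ← Spec.map_comp, ← Spec.map_comp, ← CommRingCat.ofHom_comp,
        ← CommRingCat.ofHom_comp]
      congr 2
      ext a
      simp [Algebra.TensorProduct.algebraMap_apply])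

@[reassoc (attr := simp)]
lemma conjAll_fst : conjAll K sX f hf ≫ pullback.fst sX (iSpec k K) =
    Spec.map (CommRingCat.ofHom
      (Algebra.TensorProduct.includeRight : L →ₐ[k] K ⊗[k] L).toRingHom) ≫ f :=
  pullback.lift_fst _ _ _

@[reassoc (attr := simp)]
lemma conjAll_snd : conjAll K sX f hf ≫ pullback.snd sX (iSpec k K) =
    Spec.map (CommRingCat.ofHom Algebra.TensorProduct.includeLeftRingHom) :=
  pullback.lift_snd _ _ _

lemma conjAll_isPullback : IsPullback (Spec.map (CommRingCat.ofHom
      (Algebra.TensorProduct.includeRight : L →ₐ[k] K ⊗[k] L).toRingHom))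
    (conjAll K sX f hf) f (pullback.fst sX (iSpec k K)) := by
  have h := CommRingCat.isPushout_tensorProduct k K L
  have h1 := (isPullback_SpecMap_of_isPushout _ _ _ _ h).flip
  rw [← hf, ← conjAll_snd K sX f hf] at h1
  exact IsPullback.of_bot h1 (conjAll_fst K sX f hf).symm
    (IsPullback.of_hasPullback sX (iSpec k K))

/-- Every point of `X_K` over the image of an `L`-point is one of the conjugate points. -/
lemma exists_conjPt_eq [IsAlgClosed K] [Algebra.IsAlgebraic k L] 
    (z : ↥(pullback sX (iSpec k K)))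
    (t : Spec (.of L)) (hz : pullback.fst sX (iSpec k K) z = f t) :
    ∃ σ : L →ₐ[k] K, ∀ s, conjPt K sX f hf σ s = z := by
  obtain ⟨y', -, hy'⟩ := Scheme.Pullback.exists_preimage_pullback t z hz.symm
  obtain ⟨y, hy⟩ : ∃ y, conjAll K sX f hf y = z := by
    refine ⟨(conjAll_isPullback K sX f hf).isoPullback.inv y', ?_⟩
    rw [← Scheme.Hom.comp_apply, (conjAll_isPullback K sX f hf).isoPullback_inv_snd]
    exact hy'
  have hq : y.asIdeal.IsPrime := y.isPrime
  have hint : Algebra.IsIntegral K (K ⊗[k] L) := inferInstance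
  have hint2 : Algebra.IsIntegral K ((K ⊗[k] L) ⧸ y.asIdeal) :=
    Algebra.IsIntegral.of_surjective (Ideal.Quotient.mkₐ K y.asIdeal)
      (Ideal.Quotient.mkₐ_surjective K _)
  have hbij := IsAlgClosed.algebraMap_bijective_of_isIntegral (k := K)
    (K := (K ⊗[k] L) ⧸ y.asIdeal)
  let e : K ≃ₐ[K] ((K ⊗[k] L) ⧸ y.asIdeal) :=
    AlgEquiv.ofBijective (Algebra.ofId K _) hbij
  let τ : (K ⊗[k] L) →ₐ[K] K := (e.symm : _ →ₐ[K] K).comp (Ideal.Quotient.mkₐ K y.asIdeal)
  have hker : RingHom.ker (τ : (K ⊗[k] L) →+* K) = y.asIdeal := by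
    ext c
    rw [RingHom.mem_ker]
    change e.symm (Ideal.Quotient.mkₐ K y.asIdeal c) = 0 ↔ _
    rw [map_eq_zero_iff _ e.symm.injective]
    exact Ideal.Quotient.eq_zero_iff_mem
  let σ : L →ₐ[k] K := (τ.restrictScalars k).comp Algebra.TensorProduct.includeRight
  have hσ : conjPt K sX f hf σ =
      Spec.map (CommRingCat.ofHom (τ : (K ⊗[k] L) →+* K)) ≫ conjAll K sX f hf := by
    apply pullback.hom_ext
    · rw [conjPt_fst, Category.assoc, conjAll_fst, ← Category.assoc, ← Spec.map_comp,
        ← CommRingCat.ofHom_comp]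
      rfl
    · rw [conjPt_snd, Category.assoc, conjAll_snd, ← Spec.map_comp, ← CommRingCat.ofHom_comp]
      have : (τ : (K ⊗[k] L) →+* K).comp Algebra.TensorProduct.includeLeftRingHom =
          RingHom.id K := by
        ext a
        exact τ.commutes a
      rw [this, CommRingCat.ofHom_id, Spec.map_id]
  refine ⟨σ, fun s => ?_⟩
  rw [hσ, Scheme.Hom.comp_apply]
  rw [← hy]
  congr 1
  apply PrimeSpectrum.ext
  rw [← hker]
  have hs : s.asIdeal = (⊥ : Ideal K) := by
    have := s.isPrime
    exact (Ideal.eq_bot_or_top (K := K) s.asIdeal).resolve_right this.ne_top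
  change Ideal.comap (τ : (K ⊗[k] L) →+* K) s.asIdeal = _
  rw [hs]
  rfl

include hf in
/-- The factorisation of an `L`-point through the residue field. -/
lemma exists_residue_algHom (t : Spec (.of L)) :
    letI := (residueHom sX (f t)).toAlgebra
    ∃ j : X.residueField (f t) →ₐ[k] L,
      Spec.map (CommRingCat.ofHom j.toRingHom) ≫ X.fromSpecResidueField (f t) = f := by
  obtain rfl : t = IsLocalRing.closedPoint L := Subsingleton.elim _ _
  let := (residueHom sX (f (IsLocalRing.closedPoint L))).toAlgebra
  let j := (Scheme.descResidueField (Scheme.stalkClosedPointTo f))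
  have h1 : Spec.map j ≫ X.fromSpecResidueField _ = f :=
    Scheme.descResidueField_stalkClosedPointTo_fromSpecResidueField L X f
  have h2 : j.hom.comp (residueHom sX (f (IsLocalRing.closedPoint L))) = algebraMap k L := by
    have h3 : Spec.map (CommRingCat.ofHom
        (j.hom.comp (residueHom sX (f (IsLocalRing.closedPoint L))))) =
        Spec.map (CommRingCat.ofHom (algebraMap k L)) := by
      rw [CommRingCat.ofHom_comp, Spec.map_comp, spec_residueHom, CommRingCat.ofHom_hom,
        ← Category.assoc, h1, hf]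
    exact congrArg CommRingCat.Hom.hom (Spec.map_injective h3)
  exact ⟨{ j.hom with commutes' := fun a => RingHom.congr_fun h2 a }, h1⟩

include hf in
lemma isSeparablePoint_of_isSeparable [Algebra.IsSeparable k L] (t : Spec (.of L)) :
    IsSeparablePoint sX (f t) := by
  let := (residueHom sX (f t)).toAlgebra
  obtain ⟨j, -⟩ := exists_residue_algHom sX f hf t
  exact Algebra.IsSeparable.of_algHom k L j

/-- If the conjugates of an `L`-point are pairwise distinct then its image has degree `[L : k]`. -/
lemma pointDegree_eq [IsAlgClosed K] [Module.Finite k L] [Algebra.IsSeparable k L]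
    (t : Spec (.of L)) (s : Spec (.of K))
    (hinj : ∀ σ τ : L →ₐ[k] K, conjPt K sX f hf σ s = conjPt K sX f hf τ s → σ = τ) :
    pointDegree sX (f t) = Module.finrank k L := by
  let := (residueHom sX (f t)).toAlgebra
  obtain ⟨j, hj⟩ := exists_residue_algHom sX f hf t
  have hfin : Module.Finite k (X.residueField (f t)) :=
    Module.Finite.of_injective j.toLinearMap j.toRingHom.injective
  have hle : Module.finrank k (X.residueField (f t)) ≤ Module.finrank k L :=
    LinearMap.finrank_le_finrank_of_injective (f := j.toLinearMap) j.toRingHom.injective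
  have hinj' : Function.Injective (fun σ : L →ₐ[k] K => σ.comp j) := by
    intro σ τ hστ
    apply hinj
    have h1 : conjPt K sX f hf σ = conjPt K sX f hf τ := by
      apply pullback.hom_ext
      · rw [conjPt_fst, conjPt_fst]
        rw [← hj, ← Category.assoc, ← Category.assoc, ← Spec.map_comp, ← Spec.map_comp,
          ← CommRingCat.ofHom_comp, ← CommRingCat.ofHom_comp]
        have h2 : σ.toRingHom.comp j.toRingHom = τ.toRingHom.comp j.toRingHom :=
          congrArg AlgHom.toRingHom hστ
        rw [h2]
      · rw [conjPt_snd, conjPt_snd]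
    rw [h1]
  have hsep : Algebra.IsSeparable k (X.residueField (f t)) := Algebra.IsSeparable.of_algHom k L j
  have h3 := Fintype.card_le_of_injective _ hinj'
  rw [AlgHom.card k L K, AlgHom.card k (X.residueField (f t)) K] at h3
  exact le_antisymm hle h3

end

end Pool.Agent.DelPezzo
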