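import Pool.Agent.DelPezzo.Defs

set_option autoImplicit false

universe u

open CategoryTheory AlgebraicGeometry Limits TopologicalSpace

namespace Pool.Agent.DelPezzo

variable {X Y Z : Scheme.{u}}

/-- Pull-back of an ideal sheaf between affine schemes is extension of ideals. -/
lemma comap_ideal_top [IsAffine X] [IsAffine Y] (I : Y.IdealSheafData) (f : X ⟶ Y) :
    (I.comap f).ideal ⟨⊤, isAffineOpen_top X⟩ =
      (I.ideal ⟨⊤, isAffineOpen_top Y⟩).map f.appTop.hom := by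
  apply le_antisymm
  · have h : I.comap f ≤ Scheme.IdealSheafData.ofIdealTop
        ((I.ideal ⟨⊤, isAffineOpen_top Y⟩).map f.appTop.hom) := by
      rw [← Scheme.IdealSheafData.le_map_iff_comap_le]
      apply Scheme.IdealSheafData.le_of_isAffine
      rw [Scheme.IdealSheafData.ideal_map_of_isAffineHom]
      intro s hs
      rw [Ideal.mem_comap]
      have h2 := Scheme.IdealSheafData.equivOfIsAffine_symm_apply
        ((I.ideal ⟨⊤, isAffineOpen_top Y⟩).map f.appTop.hom)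
      have h3 := (Scheme.IdealSheafData.equivOfIsAffine (X := X)).apply_symm_apply
        ((I.ideal ⟨⊤, isAffineOpen_top Y⟩).map f.appTop.hom)
      rw [Scheme.IdealSheafData.equivOfIsAffine_symm_apply,
        Scheme.IdealSheafData.equivOfIsAffine_apply] at h3
      have h4 : f.appTop.hom s ∈ (I.ideal ⟨⊤, isAffineOpen_top Y⟩).map f.appTop.hom :=
        Ideal.mem_map_of_mem _ hs
      rw [← h3] at h4
      exact h4
    refine (h ⟨⊤, isAffineOpen_top X⟩).trans ?_
    have h3 := (Scheme.IdealSheafData.equivOfIsAffine (X := X)).apply_symm_apply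
        ((I.ideal ⟨⊤, isAffineOpen_top Y⟩).map f.appTop.hom)
    rw [Scheme.IdealSheafData.equivOfIsAffine_symm_apply,
        Scheme.IdealSheafData.equivOfIsAffine_apply] at h3
    exact h3.le
  · rw [Ideal.map_le_iff_le_comap]
    have h := I.le_map_comap (f := f)
    have h1 := h ⟨⊤, isAffineOpen_top Y⟩
    rw [Scheme.IdealSheafData.ideal_map_of_isAffineHom] at h1
    exact h1

set_option backward.isDefEq.respectTransparency false in
/-- Pull-back of an ideal sheaf is computed on affine opens by extension of ideals. -/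
lemma comap_ideal (I : Y.IdealSheafData) (f : X ⟶ Y) (U : X.affineOpens) (V : Y.affineOpens)
    (e : U.1 ≤ f ⁻¹ᵁ V.1) :
    (I.comap f).ideal U = (I.ideal V).map (f.appLE V.1 U.1 e).hom := by
  have : IsAffine U.1.toScheme := U.2
  have : IsAffine V.1.toScheme := V.2
  have hcomp : f.resLE V.1 U.1 e ≫ V.1.ι = U.1.ι ≫ f := Scheme.Hom.resLE_comp_ι f e
  have h1 : ((I.comap f).comap U.1.ι) = (I.comap V.1.ι).comap (f.resLE V.1 U.1 e) := by
    rw [← Scheme.IdealSheafData.comap_comp, ← Scheme.IdealSheafData.comap_comp, hcomp]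
  have hU' : U.1.ι ''ᵁ ⊤ = U.1 := by simp
  have hV' : V.1.ι ''ᵁ ⊤ = V.1 := by simp
  have h2 : ((I.comap f).comap U.1.ι).ideal ⟨⊤, isAffineOpen_top _⟩ =
      (I.comap f).ideal ⟨U.1.ι ''ᵁ ⊤, (isAffineOpen_top _).image_of_isOpenImmersion _⟩ := by
    rw [Scheme.IdealSheafData.ideal_comap_of_isOpenImmersion]
    rw [Scheme.Opens.ι_appIso]
    exact Ideal.comap_id _
  have h3 : (I.comap V.1.ι).ideal ⟨⊤, isAffineOpen_top _⟩ =
      I.ideal ⟨V.1.ι ''ᵁ ⊤, (isAffineOpen_top _).image_of_isOpenImmersion _⟩ := by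
    rw [Scheme.IdealSheafData.ideal_comap_of_isOpenImmersion]
    rw [Scheme.Opens.ι_appIso]
    exact Ideal.comap_id _
  have hle : U ≤ ⟨U.1.ι ''ᵁ ⊤, (isAffineOpen_top _).image_of_isOpenImmersion _⟩ := hU'.ge
  have hle2 : (⟨V.1.ι ''ᵁ ⊤, (isAffineOpen_top _).image_of_isOpenImmersion _⟩ : Y.affineOpens) ≤ V :=
    hV'.le
  rw [← Scheme.IdealSheafData.map_ideal (I.comap f) hle, ← h2, h1, comap_ideal_top, h3,
    ← Scheme.IdealSheafData.map_ideal I hle2, Ideal.map_map, Ideal.map_map]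
  congr 1
  rw [← CommRingCat.hom_comp, ← CommRingCat.hom_comp]
  congr 1
  rw [Scheme.Hom.appTop, Scheme.Hom.app_eq_appLE, Scheme.Hom.resLE_appLE]
  rw [Scheme.Hom.appLE_map, Scheme.Hom.map_appLE]


/-- every point has an affine neighbourhood mapping into an affine neighbourhood of its image,
inside prescribed open sets -/
lemma exists_affine_pair (f : X ⟶ Y) (x : X) (W : X.Opens) (hx : x ∈ W) (W' : Y.Opens)
    (hy : f x ∈ W') :
    ∃ (U : X.affineOpens) (V : Y.affineOpens), x ∈ U.1 ∧ U.1 ≤ W ∧ V.1 ≤ W' ∧ U.1 ≤ f ⁻¹ᵁ V.1 := by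
  obtain ⟨_, ⟨V, hV, rfl⟩, hyV, hVW⟩ :=
    Y.isBasis_affineOpens.exists_subset_of_mem_open hy W'.isOpen
  obtain ⟨_, ⟨U, hU, rfl⟩, hxU, hUW⟩ :=
    X.isBasis_affineOpens.exists_subset_of_mem_open
      (show x ∈ ((f ⁻¹ᵁ V) ⊓ W : X.Opens) from ⟨hyV, hx⟩) ((f ⁻¹ᵁ V) ⊓ W).isOpen
  exact ⟨⟨U, hU⟩, ⟨V, hV⟩, hxU, fun a ha => (hUW ha).2, hVW, fun a ha => (hUW ha).1⟩

/-- Two ideal sheaves agreeing on a neighbourhood basis of affine opens are equal. -/
lemma ideal_ext_of_forall_mem {I J : X.IdealSheafData}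
    (h : ∀ x : X, ∃ U : X.affineOpens, x ∈ U.1 ∧ I.ideal U = J.ideal U) : I = J := by
  choose U hU hIJ using h
  refine Scheme.IdealSheafData.ext_of_iSup_eq_top U ?_ hIJ
  rw [eq_top_iff]
  intro x _

  exact Opens.mem_iSup.mpr ⟨x, hU x⟩

lemma comap_mul (I J : Y.IdealSheafData) (f : X ⟶ Y) :
    (I * J).comap f = I.comap f * J.comap f := by
  apply ideal_ext_of_forall_mem
  intro x
  obtain ⟨U, V, hxU, -, -, e⟩ := exists_affine_pair f x ⊤ trivial ⊤ trivial
  refine ⟨U, hxU, ?_⟩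
  rw [comap_ideal _ f U V e, Scheme.IdealSheafData.ideal_mul, Scheme.IdealSheafData.ideal_mul,
    Pi.mul_apply, Pi.mul_apply, comap_ideal _ f U V e, comap_ideal _ f U V e, Ideal.map_mul]

lemma isInvertibleIdeal_of_eq_top {J : X.IdealSheafData} (h : J = ⊤) : IsInvertibleIdeal J := by
  intro x
  obtain ⟨_, ⟨U, hU, rfl⟩, hxU, -⟩ :=
    X.isBasis_affineOpens.exists_subset_of_mem_open (Set.mem_univ x) isOpen_univ
  refine ⟨⟨U, hU⟩, hxU, 1, one_mem _, ?_⟩
  rw [h, Ideal.span_singleton_one]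
  rfl

/-- Invertibility is stable under flat pull-back. -/
lemma IsInvertibleIdeal.comap_of_flat {J : Y.IdealSheafData} (hJ : IsInvertibleIdeal J)
    (f : X ⟶ Y) [Flat f] : IsInvertibleIdeal (J.comap f) := by
  intro x
  obtain ⟨V, hxV, s, hs, hsJ⟩ := hJ (f x)
  obtain ⟨_, ⟨U, hU, rfl⟩, hxU, hUV⟩ :=
    X.isBasis_affineOpens.exists_subset_of_mem_open
      (show x ∈ (f ⁻¹ᵁ V.1 : X.Opens) from hxV) (f ⁻¹ᵁ V.1).isOpen
  refine ⟨⟨U, hU⟩, hxU, (f.appLE V.1 U hUV).hom s, ?_, ?_⟩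
  · have hfl : (f.appLE V.1 U hUV).hom.Flat :=
      HasRingHomProperty.appLE @Flat f inferInstance V ⟨U, hU⟩ hUV
    algebraize [(f.appLE V.1 U hUV).hom]
    have h1 := Module.Flat.isSMulRegular_of_nonZeroDivisors (M := Γ(X, U)) hs
    rw [mem_nonZeroDivisors_iff_right]
    intro y hy
    apply h1
    simp only [smul_zero]
    rw [Algebra.smul_def, RingHom.algebraMap_toAlgebra, mul_comm]
    exact hy
  · rw [comap_ideal J f ⟨U, hU⟩ V hUV, hsJ, Ideal.map_span, Set.image_singleton]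


lemma exists_of_mul_eq_span {A : Type*} [CommRing A] {a b : Ideal A} {f : A}
    (hf : f ∈ nonZeroDivisors A) (hab : a * b = Ideal.span {f}) (p : Ideal A) [hp : p.IsPrime] :
    ∃ r ∉ p, ∃ s ∈ a, ∃ t : A, s * t = r * f ∧ ∀ x ∈ a, ∃ c, r * x = c * s := by
  have key : ∀ y ∈ a * b, ∃ r : A, y = r * f := by
    intro y hy
    rw [hab, Ideal.mem_span_singleton'] at hy
    obtain ⟨r, hr⟩ := hy
    exact ⟨r, hr.symm⟩
  have hfab : f ∈ a * b := by rw [hab]; exact Ideal.mem_span_singleton_self f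
  by_contra hcon
  push Not at hcon
  -- every element of `a * b` is of the form `r * f` with `r ∈ p`
  have hsub : ∀ y ∈ a * b, ∃ r ∈ p, y = r * f := by
    intro y hy
    refine Submodule.mul_induction_on hy ?_ ?_
    · intro s hs t ht
      obtain ⟨r, hr⟩ := key (s * t) (Ideal.mul_mem_mul hs ht)
      by_cases hrp : r ∈ p
      · exact ⟨r, hrp, hr⟩
      · exfalso
        obtain ⟨x, hxa, hx⟩ := hcon r hrp s hs t hr
        obtain ⟨c, hc⟩ := key (x * t) (Ideal.mul_mem_mul hxa ht)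
        apply hx c
        -- r x f = x s t = c f s
        have : (r * x - c * s) * f = 0 := by
          have h1 : x * (s * t) = x * (r * f) := by rw [hr]
          have h2 : s * (x * t) = s * (c * f) := by rw [hc]
          linear_combination h2 - h1
        have := (mem_nonZeroDivisors_iff_right.mp hf) _ this
        linear_combination this
    · rintro y z ⟨r, hr, rfl⟩ ⟨r', hr', rfl⟩
      exact ⟨r + r', p.add_mem hr hr', by ring⟩
  obtain ⟨r, hrp, hr⟩ := hsub f hfab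
  have : (1 - r) * f = 0 := by linear_combination hr
  have := (mem_nonZeroDivisors_iff_right.mp hf) _ this
  apply hp.ne_top
  rw [Ideal.eq_top_iff_one]
  have h1 : (1 : A) = r := by linear_combination this
  rw [h1]
  exact hrp

lemma mem_basicOpen_iff_primeIdealOf (U : X.affineOpens) (x : X) (hx : x ∈ U.1) (r : Γ(X, U.1)) :
    x ∈ X.basicOpen r ↔ r ∉ (U.2.primeIdealOf ⟨x, hx⟩).asIdeal := by
  have h1 := U.2.fromSpec_preimage_basicOpen r
  have h2 := U.2.fromSpec_primeIdealOf ⟨x, hx⟩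
  have h3 : (U.2.primeIdealOf ⟨x, hx⟩) ∈ PrimeSpectrum.basicOpen r ↔
    r ∉ (U.2.primeIdealOf ⟨x, hx⟩).asIdeal := PrimeSpectrum.mem_basicOpen _ _
  rw [← h3, ← h1]
  constructor
  · intro hx'
    change (U.2.fromSpec (U.2.primeIdealOf ⟨x, hx⟩)) ∈ X.basicOpen r
    rw [h2]
    exact hx'
  · intro hx'
    change (U.2.fromSpec (U.2.primeIdealOf ⟨x, hx⟩)) ∈ X.basicOpen r at hx'
    rwa [h2] at hx'

set_option backward.isDefEq.respectTransparency false in
lemma isInvertibleIdeal_of_mul_left {I J : X.IdealSheafData} (h : IsInvertibleIdeal (I * J)) :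
    IsInvertibleIdeal I := by
  intro x
  obtain ⟨U, hxU, f, hf, hfU⟩ := h x
  rw [Scheme.IdealSheafData.ideal_mul, Pi.mul_apply] at hfU
  obtain ⟨r, hr, s, hs, t, hst, hx⟩ := exists_of_mul_eq_span hf hfU (U.2.primeIdealOf ⟨x, hxU⟩).asIdeal
  have hloc := U.2.isLocalization_basicOpen r
  refine ⟨X.affineBasicOpen r, (mem_basicOpen_iff_primeIdealOf U x hxU r).mpr hr,
    algebraMap Γ(X, U.1) Γ(X, X.basicOpen r) s, ?_, ?_⟩
  · have h1 : algebraMap Γ(X, U.1) Γ(X, X.basicOpen r) f ∈ nonZeroDivisors Γ(X, X.basicOpen r) :=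
      IsLocalization.map_nonZeroDivisors_le (Submonoid.powers r) _ ⟨f, hf, rfl⟩
    have h2 : IsUnit (algebraMap Γ(X, U.1) Γ(X, X.basicOpen r) r) :=
      IsLocalization.Away.algebraMap_isUnit r
    have h3 : algebraMap Γ(X, U.1) Γ(X, X.basicOpen r) s *
        algebraMap Γ(X, U.1) Γ(X, X.basicOpen r) t ∈ nonZeroDivisors Γ(X, X.basicOpen r) := by
      rw [← map_mul, hst, map_mul]
      exact mul_mem h2.mem_nonZeroDivisors h1
    exact (mul_mem_nonZeroDivisors.mp h3).1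
  · have h2 : IsUnit (algebraMap Γ(X, U.1) Γ(X, X.basicOpen r) r) :=
      IsLocalization.Away.algebraMap_isUnit r
    have hle : X.affineBasicOpen r ≤ U := X.basicOpen_le r
    rw [← I.map_ideal hle]
    apply le_antisymm
    · rw [Ideal.map_le_iff_le_comap]
      intro y hy
      obtain ⟨c, hc⟩ := hx y hy
      rw [Ideal.mem_comap, Ideal.mem_span_singleton']
      refine ⟨((h2.unit⁻¹ : (Γ(X, X.basicOpen r))ˣ) : Γ(X, X.basicOpen r)) *
        algebraMap Γ(X, U.1) Γ(X, X.basicOpen r) c, ?_⟩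
      change ((h2.unit⁻¹ : (Γ(X, X.basicOpen r))ˣ) : Γ(X, X.basicOpen r)) *
        algebraMap Γ(X, U.1) Γ(X, X.basicOpen r) c * algebraMap Γ(X, U.1) Γ(X, X.basicOpen r) s =
        algebraMap Γ(X, U.1) Γ(X, X.basicOpen r) y
      rw [mul_assoc, ← map_mul, ← hc, map_mul, ← mul_assoc]
      have : ((h2.unit⁻¹ : (Γ(X, X.basicOpen r))ˣ) : Γ(X, X.basicOpen r)) *
        algebraMap Γ(X, U.1) Γ(X, X.basicOpen r) r = 1 := h2.val_inv_mul
      rw [this, one_mul]
    · rw [Ideal.span_singleton_le_iff_mem]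
      exact Ideal.mem_map_of_mem _ hs

lemma isInvertibleIdeal_of_mul_right {I J : X.IdealSheafData} (h : IsInvertibleIdeal (I * J)) :
    IsInvertibleIdeal J := by
  rw [mul_comm] at h
  exact isInvertibleIdeal_of_mul_left h

set_option backward.isDefEq.respectTransparency false in
lemma IsInvertibleIdeal.exists_basicOpen {J : X.IdealSheafData} (h : IsInvertibleIdeal J) (x : X)
    (W : X.Opens) (hx : x ∈ W) : ∃ U : X.affineOpens, x ∈ U.1 ∧ U.1 ≤ W ∧
    ∃ f ∈ nonZeroDivisors Γ(X, U.1), J.ideal U = Ideal.span {f} := by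
  obtain ⟨U, hxU, f, hf, hfU⟩ := h x
  obtain ⟨r, hrW, hr⟩ := U.2.exists_basicOpen_le (V := W ⊓ U.1) ⟨x, ⟨hx, hxU⟩⟩ hxU
  have hloc := U.2.isLocalization_basicOpen r
  have hle : X.affineBasicOpen r ≤ U := X.basicOpen_le r
  have h1 : algebraMap Γ(X, U.1) Γ(X, X.basicOpen r) f ∈ nonZeroDivisors Γ(X, X.basicOpen r) :=
      IsLocalization.map_nonZeroDivisors_le (Submonoid.powers r) _ ⟨f, hf, rfl⟩
  refine ⟨X.affineBasicOpen r, hr, fun y hy => (hrW hy).1,
    algebraMap Γ(X, U.1) Γ(X, X.basicOpen r) f, h1, ?_⟩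
  rw [← J.map_ideal hle, hfU, Ideal.map_span, Set.image_singleton]
  rfl

end Pool.Agent.DelPezzo
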