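import Pool.Agent.DelPezzo.OpenCond

set_option autoImplicit false

universe u

namespace Pool.Agent.DelPezzo

open MvPolynomial

variable {K : Type u} [Field K]

lemma eval_smul_of_isHomogeneous {n : ℕ} {F : MvPolynomial (Fin 3) K} (hF : F.IsHomogeneous n)
    (c : K) (x : Fin 3 → K) : eval (c • x) F = c ^ n * eval x F := by
  have h := eval₂_mul_of_isHomogeneous (RingHom.id K) c x hF
  exact h

lemma X_dvd_sub_aeval (F : MvPolynomial (Fin 3) K) :
    X 2 ∣ F - aeval (fun i : Fin 3 => if i = 2 then (0 : MvPolynomial (Fin 3) K) else X i) F := by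
  induction F using MvPolynomial.induction_on with
  | C a => simp
  | add p q hp hq =>
    rw [map_add, add_sub_add_comm]
    exact dvd_add hp hq
  | mul_X p i hp =>
    rw [map_mul, aeval_X]
    by_cases hi : i = 2
    · subst hi
      simp
    · rw [if_neg hi, ← sub_mul]
      exact dvd_mul_of_dvd_left hp _

lemma isHomogeneous_of_X_mul {n : ℕ} {F Q : MvPolynomial (Fin 3) K} (hF : F.IsHomogeneous (n + 1))
    (h : F = X 2 * Q) : Q.IsHomogeneous n := by
  intro d hd
  have h1 : coeff (Finsupp.single 2 1 + d) F = coeff d Q := by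
    rw [h, coeff_X_mul]
  have h2 := hF (h1.trans_ne hd)
  rw [map_add, Finsupp.weight_single] at h2
  simp only [Pi.one_apply, smul_eq_mul, mul_one] at h2
  omega

/-- A form vanishing on a line is divisible by the equation of the line. -/
lemma exists_factor [Infinite K] {a u : Fin 3 → K} (hau : LinearIndependent K ![a, u]) {n : ℕ}
    {F : MvPolynomial (Fin 3) K} (hF : F.IsHomogeneous (n + 1))
    (h : ∀ t : K, eval (a + t • u) F = 0) :
    ∃ l Q : MvPolynomial (Fin 3) K, l.IsHomogeneous 1 ∧ Q.IsHomogeneous n ∧ F = l * Q ∧ l ≠ 0 ∧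
      eval a l = 0 ∧ eval u l = 0 := by
  obtain ⟨b, hb⟩ := exists_linearIndependent_snoc_of_lt_finrank hau (by simp)
  let β := basisOfLinearIndependentOfCardEqFinrank hb (by simp)
  have hβ0 : β 0 = a := by
    rw [coe_basisOfLinearIndependentOfCardEqFinrank]
    rfl
  have hβ1 : β 1 = u := by
    rw [coe_basisOfLinearIndependentOfCardEqFinrank]
    rfl
  have hβ2 : β 2 = b := by
    rw [coe_basisOfLinearIndependentOfCardEqFinrank]
    rfl
  -- the change of coordinates
  let FT : MvPolynomial (Fin 3) K := aeval (fun i => C (a i) * X 0 + C (u i) * X 1 + C (b i) * X 2) F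
  have hFT : ∀ x : Fin 3 → K, eval x FT = eval (x 0 • a + x 1 • u + x 2 • b) F := by
    intro x
    rw [← coe_aeval_eq_eval, ← coe_aeval_eq_eval, RingHom.coe_coe, RingHom.coe_coe]
    rw [← AlgHom.comp_apply, comp_aeval]
    congr 2
    ext i
    simp [mul_comm]
  have hFThom : FT.IsHomogeneous (n + 1) := by
    have := hF.aeval (fun i => (C (a i) * X 0 + C (u i) * X 1 + C (b i) * X 2 :
        MvPolynomial (Fin 3) K)) (n := 1) (by
      intro i
      exact (((isHomogeneous_X K 0).C_mul _).add ((isHomogeneous_X K 1).C_mul _)).add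
        ((isHomogeneous_X K 2).C_mul _))
    rw [one_mul] at this
    exact this
  have hφ : aeval (fun i : Fin 3 => if i = 2 then (0 : MvPolynomial (Fin 3) K) else X i) FT = 0 := by
    have h1 : X 0 * aeval (fun i : Fin 3 => if i = 2 then (0 : MvPolynomial (Fin 3) K) else X i) FT
        = 0 := by
      apply MvPolynomial.funext
      intro x
      rw [map_mul, eval_X, map_zero]
      have h2 : eval x (aeval (fun i : Fin 3 =>
          if i = 2 then (0 : MvPolynomial (Fin 3) K) else X i) FT) =
          eval ![x 0, x 1, 0] FT := by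
        rw [← coe_aeval_eq_eval, ← coe_aeval_eq_eval, RingHom.coe_coe, RingHom.coe_coe]
        rw [← AlgHom.comp_apply, comp_aeval]
        congr 2
        ext i
        fin_cases i <;> simp
      rw [h2, hFT]
      by_cases hx : x 0 = 0
      · rw [hx, zero_mul]
      · have h3 : (![x 0, x 1, 0] : Fin 3 → K) 0 • a + (![x 0, x 1, 0] : Fin 3 → K) 1 • u +
            (![x 0, x 1, 0] : Fin 3 → K) 2 • b = x 0 • (a + (x 1 / x 0) • u) := by
          ext i
          simp
          field_simp
        rw [h3, eval_smul_of_isHomogeneous hF, h, mul_zero, mul_zero]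
    exact (mul_eq_zero.mp h1).resolve_left (X_ne_zero 0)
  obtain ⟨Q', hQ'⟩ : X 2 ∣ FT := by
    have := X_dvd_sub_aeval FT
    rwa [hφ, sub_zero] at this
  have hQ'hom := isHomogeneous_of_X_mul hFThom hQ'
  -- the inverse change of coordinates
  let g : Fin 3 → MvPolynomial (Fin 3) K := fun i => ∑ j, C (β.equivFun (Pi.single j 1) i) * X j
  have hg : ∀ (x : Fin 3 → K) (i : Fin 3), eval x (g i) = β.equivFun x i := by
    intro x i
    have h1 : x = ∑ j, x j • (Pi.single j 1 : Fin 3 → K) := by
      ext i
      simp [Finset.sum_apply, Pi.single_apply]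
    conv_rhs => rw [h1, map_sum]
    simp only [g, map_sum, map_mul, eval_C, eval_X, map_smul, Finset.sum_apply, Pi.smul_apply,
      smul_eq_mul]
    exact Finset.sum_congr rfl fun j _ => mul_comm _ _
  have hghom : ∀ i, (g i).IsHomogeneous 1 := by
    intro i
    apply IsHomogeneous.sum
    intro j _
    exact (isHomogeneous_X K j).C_mul _
  refine ⟨g 2, aeval g Q', hghom 2, ?_, ?_, ?_, ?_, ?_⟩
  · have := hQ'hom.aeval g hghom
    rwa [one_mul] at this
  · apply MvPolynomial.funext
    intro x
    rw [map_mul, hg]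
    have h1 : eval x (aeval g Q') = eval (β.equivFun x) Q' := by
      rw [← coe_aeval_eq_eval, ← coe_aeval_eq_eval, RingHom.coe_coe, RingHom.coe_coe]
      rw [← AlgHom.comp_apply, comp_aeval]
      congr 2
      ext i
      exact hg x i
    have h2 : eval (β.equivFun x) FT = eval x F := by
      rw [hFT]
      congr 2
      have := β.sum_equivFun x
      rw [Fin.sum_univ_three, hβ0, hβ1, hβ2] at this
      exact this
    rw [h1, ← h2, hQ', map_mul, eval_X]
  · intro h0
    have h1 := hg b 2
    rw [h0, map_zero, ← hβ2, Module.Basis.equivFun_self] at h1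
    simp at h1
  · rw [hg, ← hβ0, Module.Basis.equivFun_self]
    simp
  · rw [hg, ← hβ1, Module.Basis.equivFun_self]
    simp

end Pool.Agent.DelPezzo
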