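import Pool.Agent.DelPezzo.LineFactor

set_option autoImplicit false

universe u

namespace Pool.Agent.DelPezzo

open MvPolynomial

variable {K : Type u} [Field K]

/-- restriction of a form to a parametrised line -/
noncomputable def restr (a u : Fin 3 → K) (F : MvPolynomial (Fin 3) K) : Polynomial K :=
  aeval (fun i => Polynomial.C (a i) + Polynomial.C (u i) * Polynomial.X) F

lemma eval_restr (a u : Fin 3 → K) (F : MvPolynomial (Fin 3) K) (t : K) :
    (restr a u F).eval t = eval (a + t • u) F := by
  rw [restr, ← Polynomial.coe_evalRingHom, aeval_def, hom_eval₂, eval, coe_eval₂Hom]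
  congr 1
  · ext x
    simp
  · ext i
    simp only [map_add, map_mul, Polynomial.coe_evalRingHom, Polynomial.eval_C, Polynomial.eval_X,
      Pi.add_apply, Pi.smul_apply, smul_eq_mul]
    ring

lemma natDegree_restr_le (a u : Fin 3 → K) {n : ℕ} {F : MvPolynomial (Fin 3) K}
    (hF : F.IsHomogeneous n) : (restr a u F).natDegree ≤ n := by
  have := aeval_natDegree_le F hF.totalDegree_le
    (fun i => Polynomial.C (a i) + Polynomial.C (u i) * Polynomial.X) (n := 1) (by
      intro i
      compute_degree)
  rwa [mul_one] at this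

lemma derivative_restr (a u : Fin 3 → K) (F : MvPolynomial (Fin 3) K) :
    Polynomial.derivative (restr a u F) =
      ∑ j, Polynomial.C (u j) * restr a u (pderiv j F) := by
  induction F using MvPolynomial.induction_on with
  | C x =>
    simp [restr]
  | add p q hp hq =>
    simp only [restr, map_add] at hp hq ⊢
    rw [hp, hq, ← Finset.sum_add_distrib]
    exact Finset.sum_congr rfl fun j _ => by ring
  | mul_X p i hp =>
    set φ : MvPolynomial (Fin 3) K →ₐ[K] Polynomial K :=
      aeval (fun i => Polynomial.C (a i) + Polynomial.C (u i) * Polynomial.X) with hφ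
    change Polynomial.derivative (φ (p * X i)) = ∑ j, Polynomial.C (u j) * φ (pderiv j (p * X i))
    change Polynomial.derivative (φ p) = ∑ j, Polynomial.C (u j) * φ (pderiv j p) at hp
    have h1 : φ (X i) = Polynomial.C (a i) + Polynomial.C (u i) * Polynomial.X := aeval_X _ _
    have h2 : ∀ j, φ (pderiv j (p * X i)) =
        φ (pderiv j p) * φ (X i) + φ p * (if j = i then 1 else 0) := by
      intro j
      rw [Derivation.leibniz, smul_eq_mul, smul_eq_mul, map_add, map_mul, map_mul, pderiv_X]
      by_cases hji : j = i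
      · subst hji
        simp
        ring
      · rw [Pi.single_eq_of_ne' hji, if_neg hji]
        simp
        ring
    simp_rw [h2, mul_add, Finset.sum_add_distrib]
    rw [map_mul, Polynomial.derivative_mul, hp, Finset.sum_mul]
    refine congrArg₂ (· + ·) ?_ ?_
    · exact Finset.sum_congr rfl fun j _ => by ring
    · simp only [mul_ite, mul_one, mul_zero, Finset.sum_ite_eq', Finset.mem_univ, if_true, h1,
        map_add, Polynomial.derivative_C, Polynomial.derivative_mul, Polynomial.derivative_X]
      ring

lemma eval_line_eq_zero_of_eval₂ {a u : Fin 3 → K} {F : MvPolynomial (Fin 3) K}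
    (hF : F.IsHomogeneous 2) {t₁ t₂ t₃ : K} (h12 : t₁ ≠ t₂) (h13 : t₁ ≠ t₃) (h23 : t₂ ≠ t₃)
    (h1 : eval (a + t₁ • u) F = 0) (h2 : eval (a + t₂ • u) F = 0) (h3 : eval (a + t₃ • u) F = 0)
    (t : K) : eval (a + t • u) F = 0 := by
  classical
  have h : restr a u F = 0 := by
    apply Polynomial.eq_zero_of_natDegree_lt_card_of_eval_eq_zero' _ {t₁, t₂, t₃}
    · intro i hi
      simp only [Finset.mem_insert, Finset.mem_singleton] at hi
      rcases hi with rfl | rfl | rfl
      · rw [eval_restr, h1]
      · rw [eval_restr, h2]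
      · rw [eval_restr, h3]
    · refine lt_of_le_of_lt (natDegree_restr_le a u hF) ?_
      rw [Finset.card_insert_of_notMem (by simp [h12, h13]), Finset.card_pair h23]
      norm_num
  rw [← eval_restr, h, Polynomial.eval_zero]

omit [Field K] in
lemma four_le_card [DecidableEq K] {R : Multiset K} {t₁ t₂ t₃ : K} (h12 : t₁ ≠ t₂) (h13 : t₁ ≠ t₃)
    (h23 : t₂ ≠ t₃) (h1 : 2 ≤ R.count t₁) (h2 : 1 ≤ R.count t₂) (h3 : 1 ≤ R.count t₃) :
    4 ≤ R.card := by
  have hle : ({t₁, t₁, t₂, t₃} : Multiset K) ≤ R := by
    rw [Multiset.le_iff_count]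
    intro x
    by_cases hx1 : x = t₁
    · subst hx1
      simpa [h12, h13] using h1
    · by_cases hx2 : x = t₂
      · subst hx2
        simpa [Ne.symm h12, h23] using h2
      · by_cases hx3 : x = t₃
        · subst hx3
          simpa [Ne.symm h13, Ne.symm h23] using h3
        · simp [hx1, hx2, hx3]
  have hcard := Multiset.card_le_card hle
  simpa using hcard

lemma eval_line_eq_zero_of_eval₃ {a u : Fin 3 → K} {F : MvPolynomial (Fin 3) K}
    (hF : F.IsHomogeneous 3) {t₁ t₂ t₃ : K} (h12 : t₁ ≠ t₂) (h13 : t₁ ≠ t₃) (h23 : t₂ ≠ t₃)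
    (h1 : eval (a + t₁ • u) F = 0) (h2 : eval (a + t₂ • u) F = 0) (h3 : eval (a + t₃ • u) F = 0)
    (h1' : ∀ j, eval (a + t₁ • u) (pderiv j F) = 0)
    (t : K) : eval (a + t • u) F = 0 := by
  classical
  have h : restr a u F = 0 := by
    by_contra hne
    have hr1 : 2 ≤ (restr a u F).roots.count t₁ := by
      rw [Polynomial.count_roots]
      apply (Polynomial.one_lt_rootMultiplicity_iff_isRoot hne).mpr
      refine ⟨?_, ?_⟩
      · rw [Polynomial.IsRoot, eval_restr, h1]
      · rw [Polynomial.IsRoot, derivative_restr, Polynomial.eval_finsetSum]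
        apply Finset.sum_eq_zero
        intro j _
        rw [Polynomial.eval_mul, eval_restr, h1' j, mul_zero]
    have hr2 : 1 ≤ (restr a u F).roots.count t₂ := by
      rw [Multiset.one_le_count_iff_mem, Polynomial.mem_roots hne, Polynomial.IsRoot, eval_restr, h2]
    have hr3 : 1 ≤ (restr a u F).roots.count t₃ := by
      rw [Multiset.one_le_count_iff_mem, Polynomial.mem_roots hne, Polynomial.IsRoot, eval_restr, h3]
    have hcard := four_le_card h12 h13 h23 hr1 hr2 hr3
    have h4 := Polynomial.card_roots' (restr a u F)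
    have h5 := natDegree_restr_le a u hF
    omega
  rw [← eval_restr, h, Polynomial.eval_zero]

end Pool.Agent.DelPezzo
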