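import Pool.Agent.DelPezzo.Points

set_option autoImplicit false

universe u

open CategoryTheory AlgebraicGeometry Limits TopologicalSpace

namespace Pool.Agent.DelPezzo

/-- Main theorem, over an arbitrary algebraically closed extension. -/
theorem main {k : Type u} [Field k] [Infinite k] (K : Type u) [Field K] [Algebra k K]
    [IsAlgClosed K] {X : Scheme.{u}} (sX : X ⟶ Spec (.of k)) {d n : ℕ}
    (hX : IsSplitDelPezzo (pullback.snd sX (iSpec k K)) d) (hun : IsUnirational sX)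
    (hn : n < d) (lam : Fin 8 → ℕ) (hlam : n = ∑ i : Fin 8, (i.1 + 1) * lam i)
    (hsep : ∀ i, 0 < lam i → ∃ (L : Type u) (_ : Field L) (_ : Algebra k L),
      Algebra.IsSeparable k L ∧ Module.finrank k L = i.1 + 1) :
    ∃ (M : Finset X) (hM : ∀ x ∈ M, IsClosed ({x} : Set X)),
      (∀ x ∈ M, IsSeparablePoint sX x) ∧
      (∀ i : Fin 8, (M.filter fun x => pointDegree sX x = i.1 + 1).card = lam i) ∧
      (∀ x ∈ M, ∃ i : Fin 8, pointDegree sX x = i.1 + 1) ∧
      ∀ (Y : Scheme.{u}) (π : Y ⟶ X),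
        IsBlowup π (Scheme.IdealSheafData.vanishingIdeal ⟨M, isClosed_finset M hM⟩) →
        IsSplitDelPezzo (pullback.snd (π ≫ sX) (iSpec k K)) (d - n) := by
  classical
  obtain ⟨-, r, v, hv, b, hrd, hb, hblow⟩ := hX
  obtain ⟨m, U, φ, hφ, hdom⟩ := hun
  have hKinf : Infinite K := IsAlgClosed.instInfinite
  -- the open set over which `b` is an isomorphism
  let V : (P2 K).Opens := ⟨(ptClosed v hv.ne_zero : Set (P2 K))ᶜ,
    (ptClosed v hv.ne_zero).isClosed.isOpen_compl⟩
  have hV : ∀ x : P2 K, x ∈ V ↔ x ∉ ptClosed v hv.ne_zero := fun x => Iff.rfl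
  have hiso : IsIso (b ∣_ V) := by
    apply hblow.isIso_morphismRestrict
    intro x hx
    rw [support_vanishingIdeal]
    exact hx
  -- coordinates
  let ρ := baseMap K sX φ hφ ≫ b
  have hρ : ρ ≫ P2.toSpec K = (Aff.map k K m ⁻¹ᵁ U).ι ≫ Aff.toSpec K m := by
    rw [Category.assoc, hb, baseMap_snd]
  have hdomK : IsDominant (baseMap K sX φ hφ) := isDominant_baseMap K φ hφ
  obtain ⟨h, ψ, hh, hψ, hpts⟩ := exists_polynomials ρ hρ (by
    intro N F hN hF hF0
    obtain ⟨w, hw, hw1, hw2⟩ := exists_mem_basicOpen_and_forall_ne v hv.ne_zero hN hF hF0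
    obtain ⟨y, hy⟩ := exists_preimage_of_isIso b V (pt w hw) (by
      rw [hV, mem_ptClosed]
      rintro ⟨i, hi⟩
      exact hw2 i hi)
    obtain ⟨_, hz1, z, rfl⟩ := hdomK.denseRange.inter_open_nonempty
      (b ⁻¹ᵁ Proj.basicOpen (gr K) F) (b ⁻¹ᵁ Proj.basicOpen (gr K) F).isOpen
      ⟨y, by change b y ∈ Proj.basicOpen (gr K) F; rw [hy]; exact hw1⟩
    exact ⟨z, hz1⟩)
  -- the fields
  have hL : ∀ c : (Σ i : Fin 8, Fin (lam i)), ∃ (L : Type u) (_ : Field L) (_ : Algebra k L),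
      Algebra.IsSeparable k L ∧ Module.finrank k L = c.1.1 + 1 := fun c =>
    hsep c.1 (lt_of_le_of_lt (Nat.zero_le _) c.2.2)
  choose L hLF hLA hLs hLr using hL
  have hLfin : ∀ c : (Σ i : Fin 8, Fin (lam i)), Module.Finite k (L c) := fun c =>
    Module.finite_of_finrank_pos (by rw [hLr]; omega)
  have hcard : ∀ c : (Σ i : Fin 8, Fin (lam i)), Nonempty (Fin (c.1.1 + 1) ≃ (L c →ₐ[k] K)) :=
    fun c => ⟨(Fintype.equivFinOfCardEq ((AlgHom.card k (L c) K).trans (hLr c))).symm⟩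
  let ε : ∀ c : (Σ i : Fin 8, Fin (lam i)), Fin (c.1.1 + 1) ≃ (L c →ₐ[k] K) :=
    fun c => (hcard c).some
  let E : Type := Σ c : (Σ i : Fin 8, Fin (lam i)), Fin (c.1.1 + 1)
  obtain ⟨a, ha, haGP⟩ := exists_genPos h hh ψ hψ hv E
  -- the open condition
  let P : Fin r ⊕ E → Fin 3 → MvPolynomial (E × Fin m) K :=
    Sum.elim (fun i j => MvPolynomial.C (v i j))
      (fun e j => MvPolynomial.rename (fun l => (e, l)) (ψ j))
  have hren : ∀ (w : E × Fin m → K) (e : E) (F : MvPolynomial (Fin m) K),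
      MvPolynomial.eval w (MvPolynomial.rename (fun l => (e, l)) F) =
        MvPolynomial.eval (fun l => w (e, l)) F := by
    intro w e F
    rw [MvPolynomial.eval_rename]
    rfl
  have hP : ∀ w : E × Fin m → K, (fun i j => MvPolynomial.eval w (P i j)) =
      Sum.elim v (fun e i => MvPolynomial.eval (fun l => w (e, l)) (ψ i)) := by
    intro w
    ext (i | e) j
    · simp [P]
    · exact hren w e (ψ j)
  obtain ⟨G, hG, hG'⟩ := exists_open_genPos P (fun x => a x.1 x.2) (by rw [hP]; exact haGP)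
  have hΦ : MvPolynomial.eval (fun x : E × Fin m => a x.1 x.2)
      (G * ∏ e : E, MvPolynomial.rename (fun l => (e, l)) h) ≠ 0 := by
    rw [map_mul, map_prod]
    refine mul_ne_zero hG (Finset.prod_ne_zero_iff.mpr fun e _ => ?_)
    rw [hren]
    exact ha e
  obtain ⟨p, hp⟩ := exists_conj_eval_ne_zero (fun c : (Σ i : Fin 8, Fin (lam i)) => c.1.1 + 1) L hLr
    (fun c => Nat.succ_pos _) ε _ _ hΦ
  rw [map_mul, map_prod, mul_ne_zero_iff, Finset.prod_ne_zero_iff] at hp
  let w' : E → Fin m → K := fun e l => ε e.1 e.2 (p e.1 l)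
  have hw'h : ∀ e, MvPolynomial.eval (w' e) h ≠ 0 := by
    intro e
    have := hp.2 e (Finset.mem_univ e)
    rw [hren] at this
    exact this
  have hGP : GenPos (Sum.elim v (fun e i => MvPolynomial.eval (w' e) (ψ i))) := by
    have := hG' _ hp.1
    rw [hP] at this
    exact this
  -- the points
  have hpts' : ∀ e : E, ∃ (hW : affPt (w' e) ∈ (Aff.map k K m ⁻¹ᵁ U))
      (hne : (fun i => MvPolynomial.eval (w' e) (ψ i)) ≠ 0),
      ρ ⟨affPt (w' e), hW⟩ = pt _ hne := fun e => hpts (w' e) (hw'h e)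
  choose hW hne hρw using hpts'
  let w : E → Fin 3 → K := fun e i => MvPolynomial.eval (w' e) (ψ i)
  have hU : ∀ (c : (Σ i : Fin 8, Fin (lam i))) (t : Spec (.of (L c))),
      affL (k := k) (p c) t ∈ U := fun c t =>
    affL_mem (p c) (ε c 0) (hW ⟨c, 0⟩) t
  let f : ∀ c : (Σ i : Fin 8, Fin (lam i)), Spec (.of (L c)) ⟶ X := fun c => affU (p c) (hU c) ≫ φ
  have hf : ∀ c, f c ≫ sX = Spec.map (CommRingCat.ofHom (algebraMap k (L c))) := fun c =>
    affU_comp φ hφ (p c) (hU c)
  have hconj : ∀ (c : (Σ i : Fin 8, Fin (lam i))) (s : Fin (c.1.1 + 1)) (t : Spec (.of K)),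
      b (conjPt K sX (f c) (hf c) (ε c s) t) = pt (w ⟨c, s⟩) (hne ⟨c, s⟩) := by
    intro c s t
    have h1 := conjPt_affU φ hφ (p c) (hU c) (ε c s) (hW ⟨c, s⟩) t
    rw [← hρw ⟨c, s⟩]
    exact congrArg b h1
  have t₀ : Spec (.of K) := IsLocalRing.closedPoint K
  -- distinct indices give distinct points of the plane
  have hdist : ∀ e e' : E, pt (w e) (hne e) = pt (w e') (hne e') → e = e' := by
    intro e e' hee
    by_contra hcon
    obtain ⟨c, hc⟩ := exists_smul_of_pt_eq _ _ hee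
    exact hGP.distinct (Sum.inr e) (Sum.inr e') (fun h => hcon (Sum.inr_injective h)) c hc
  have hwV : ∀ e, pt (w e) (hne e) ∈ V := by
    intro e
    rw [hV, mem_ptClosed]
    rintro ⟨i, hi⟩
    obtain ⟨c, hc⟩ := exists_smul_of_pt_eq _ _ hi
    exact hGP.distinct (Sum.inr e) (Sum.inl i) (by simp) c hc
  -- the closed points
  let x : (Σ i : Fin 8, Fin (lam i)) → X := fun c => f c (IsLocalRing.closedPoint (L c))
  have hdeg : ∀ c, pointDegree sX (x c) = c.1.1 + 1 := by
    intro c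
    rw [← hLr c]
    apply pointDegree_eq K sX (f c) (hf c) _ t₀
    intro σ τ hστ
    obtain ⟨s, rfl⟩ := (ε c).surjective σ
    obtain ⟨s', rfl⟩ := (ε c).surjective τ
    have h1 := congrArg b hστ
    rw [hconj, hconj] at h1
    have h2 : (⟨c, s⟩ : Σ c : (Σ i : Fin 8, Fin (lam i)), Fin (c.1.1 + 1)) = ⟨c, s'⟩ :=
      hdist _ _ h1
    rw [eq_of_heq (Sigma.mk.inj h2).2]
  have hsepx : ∀ c, IsSeparablePoint sX (x c) := fun c =>
    isSeparablePoint_of_isSeparable sX (f c) (hf c) _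
  have hconjx : ∀ (c : (Σ i : Fin 8, Fin (lam i))) (σ : L c →ₐ[k] K) (t : Spec (.of K)),
      pullback.fst sX (iSpec k K) (conjPt K sX (f c) (hf c) σ t) = x c := by
    intro c σ t
    rw [← Scheme.Hom.comp_apply, conjPt_fst, Scheme.Hom.comp_apply]
    congr 1
    exact Subsingleton.elim _ _
  have hfib : ∀ (c : (Σ i : Fin 8, Fin (lam i))) (z : ↥(pullback sX (iSpec k K))),
      pullback.fst sX (iSpec k K) z = x c ↔ ∃ s, b z = pt (w ⟨c, s⟩) (hne ⟨c, s⟩) := by
    intro c z
    constructor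
    · intro hz
      obtain ⟨σ, hσ⟩ := exists_conjPt_eq K sX (f c) (hf c) z _ hz
      obtain ⟨s, rfl⟩ := (ε c).surjective σ
      refine ⟨s, ?_⟩
      rw [← hσ t₀, hconj]
    · rintro ⟨s, hs⟩
      have h1 : z = conjPt K sX (f c) (hf c) (ε c s) t₀ := by
        apply eq_of_isIso b V
        · rw [hs, hconj]
        · rw [hs]
          exact hwV _
      rw [h1, hconjx]
  have hxinj : Function.Injective x := by
    intro c c' hcc
    have h1 : pullback.fst sX (iSpec k K) (conjPt K sX (f c) (hf c) (ε c 0) t₀) = x c' := by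
      rw [hconjx, hcc]
    obtain ⟨s, hs⟩ := (hfib c' _).mp h1
    rw [hconj] at hs
    have h2 := hdist _ _ hs
    exact congrArg Sigma.fst h2
  have hclosed : ∀ c, IsClosed ({x c} : Set X) := by
    intro c
    have hq : Topology.IsQuotientMap (pullback.fst sX (iSpec k K)) := by
      apply IsOpenMap.isQuotientMap (pullback.fst sX (iSpec k K)).isOpenMap
        (pullback.fst sX (iSpec k K)).continuous
      exact (pullback.fst sX (iSpec k K)).surjective
    rw [← hq.isClosed_preimage]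
    have h1 : (pullback.fst sX (iSpec k K)) ⁻¹' {x c} =
        b ⁻¹' (ptClosed (fun s : Fin (c.1.1 + 1) => w ⟨c, s⟩) (fun s => hne ⟨c, s⟩) : Set (P2 K)) := by
      ext z
      change pullback.fst sX (iSpec k K) z = x c ↔ b z ∈ ptClosed _ _
      rw [hfib, mem_ptClosed]
    rw [h1]
    exact (ptClosed _ _).isClosed.preimage b.continuous
  have hE : Fintype.card E = n := by
    rw [Fintype.card_sigma, hlam, Fintype.sum_sigma]
    refine Finset.sum_congr rfl fun i _ => ?_
    simp [mul_comm]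
  have hM : ∀ y ∈ Finset.univ.image x, IsClosed ({y} : Set X) := by
    intro y hy
    obtain ⟨c, -, rfl⟩ := Finset.mem_image.mp hy
    exact hclosed c
  refine ⟨Finset.univ.image x, hM, ?_, ?_, ?_, ?_⟩
  · intro y hy
    obtain ⟨c, -, rfl⟩ := Finset.mem_image.mp hy
    exact hsepx c
  · intro i
    rw [Finset.filter_image, Finset.card_image_of_injective _ hxinj]
    have h1 : (Finset.univ.filter fun c : (Σ i : Fin 8, Fin (lam i)) =>
        pointDegree sX (x c) = i.1 + 1) = Finset.univ.filter fun c => c.1 = i := by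
      ext c
      simp only [Finset.mem_filter, Finset.mem_univ, true_and, hdeg, Fin.ext_iff]
      omega
    rw [h1, ← Fintype.card_subtype, Fintype.card_congr (Equiv.sigmaSubtype i), Fintype.card_fin]
  · intro y hy
    obtain ⟨c, -, rfl⟩ := Finset.mem_image.mp hy
    exact ⟨c.1, hdeg c⟩
  · intro Y π hπ
    refine isSplitDelPezzo_of_isBlowup K sX v hv b hrd hb hblow hE hn w hGP hne _ hM ?_ ?_ ?_ π hπ
    · intro y hy
      obtain ⟨c, -, rfl⟩ := Finset.mem_image.mp hy
      exact hsepx c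
    · intro y hy
      obtain ⟨c, -, rfl⟩ := Finset.mem_image.mp hy
      rw [hdeg]
      exact Nat.succ_pos _
    · intro z
      rw [mem_ptClosed, Finset.mem_image]
      constructor
      · rintro ⟨c, -, hc⟩
        obtain ⟨s, hs⟩ := (hfib c z).mp hc.symm
        exact ⟨⟨c, s⟩, hs⟩
      · rintro ⟨⟨c, s⟩, hs⟩
        exact ⟨c, Finset.mem_univ _, ((hfib c z).mpr ⟨s, hs⟩).symm⟩

end Pool.Agent.DelPezzo
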