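import Pool.Agent.DelPezzo.LineRestrict

set_option autoImplicit false

universe u

namespace Pool.Agent.DelPezzo

open MvPolynomial

variable {K : Type u} [Field K]

lemma eq_zero_of_linearIndependent [Infinite K] {F : MvPolynomial (Fin 3) K}
    (hF : F.IsHomogeneous 1)
    {v : Fin 3 → Fin 3 → K} (hv : LinearIndependent K v) (h : ∀ t, eval (v t) F = 0) : F = 0 := by
  have h1 : F ∈ Submodule.span K (Set.range (X : Fin 3 → MvPolynomial (Fin 3) K)) := by
    rw [← homogeneousSubmodule_one_eq_span_X]
    exact hF
  obtain ⟨c, hc⟩ := (Submodule.mem_span_range_iff_exists_fun K).mp h1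
  let f : (Fin 3 → K) →ₗ[K] K := Fintype.linearCombination K c
  have hf : ∀ x, eval x F = f x := by
    intro x
    rw [← hc]
    simp [f, Fintype.linearCombination_apply, smul_eval, mul_comm]
  let β := basisOfLinearIndependentOfCardEqFinrank hv (by simp)
  have hf0 : f = 0 := by
    apply β.ext
    intro t
    rw [coe_basisOfLinearIndependentOfCardEqFinrank, ← hf, h, LinearMap.zero_apply]
  apply MvPolynomial.funext
  intro x
  rw [hf, hf0, map_zero, LinearMap.zero_apply]

lemma linearIndependent_pair {a b : Fin 3 → K} (ha : a ≠ 0) (hab : ∀ c : K, b ≠ c • a) :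
    LinearIndependent K ![a, b] := by
  rw [LinearIndependent.pair_iff' ha]
  exact fun c h => hab c h.symm

lemma eval_line_eq_zero_of_linear {l : MvPolynomial (Fin 3) K} (hl : l.IsHomogeneous 1)
    {a u : Fin 3 → K} (ha : eval a l = 0) (hu : eval u l = 0) (t : K) :
    eval (a + t • u) l = 0 := by
  have h1 : l ∈ Submodule.span K (Set.range (X : Fin 3 → MvPolynomial (Fin 3) K)) := by
    rw [← homogeneousSubmodule_one_eq_span_X]
    exact hl
  obtain ⟨c, hc⟩ := (Submodule.mem_span_range_iff_exists_fun K).mp h1
  let f : (Fin 3 → K) →ₗ[K] K := Fintype.linearCombination K c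
  have hf : ∀ x, eval x l = f x := by
    intro x
    rw [← hc]
    simp [f, Fintype.linearCombination_apply, smul_eval, mul_comm]
  rw [hf] at ha hu ⊢
  rw [map_add, map_smul, ha, hu, smul_zero, add_zero]

/-- gradient of a product at a zero of the linear factor -/
lemma eval_eq_zero_of_gradient {l Q : MvPolynomial (Fin 3) K} [Infinite K]
    (hl : l.IsHomogeneous 1) (hl0 : l ≠ 0)
    {w : Fin 3 → K} (hw : eval w l = 0) (h : ∀ j, eval w (pderiv j (l * Q)) = 0) :
    eval w Q = 0 := by
  have h1 : l ∈ Submodule.span K (Set.range (X : Fin 3 → MvPolynomial (Fin 3) K)) := by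
    rw [← homogeneousSubmodule_one_eq_span_X]
    exact hl
  obtain ⟨c, hc⟩ := (Submodule.mem_span_range_iff_exists_fun K).mp h1
  have hc0 : ∃ j, c j ≠ 0 := by
    by_contra hcon
    push Not at hcon
    apply hl0
    rw [← hc]
    simp [hcon]
  obtain ⟨j, hj⟩ := hc0
  have h2 : pderiv j l = C (c j) := by
    rw [← hc, map_sum, Finset.sum_eq_single j]
    · rw [Derivation.map_smul, pderiv_X_self, smul_eq_C_mul, mul_one]
    · intro i _ hij
      rw [Derivation.map_smul, pderiv_X_of_ne hij, smul_zero]
    · simp
  have h3 := h j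
  rw [Derivation.leibniz, smul_eq_mul, smul_eq_mul, h2, map_add, map_mul, map_mul, hw, eval_C] at h3
  simp only [zero_mul, zero_add, mul_eq_zero] at h3
  exact h3.resolve_right hj

lemma exists_ne_zero_ne_one (K : Type u) [Field K] [Infinite K] : ∃ t : K, t ≠ 0 ∧ t ≠ 1 := by
  classical
  obtain ⟨t, ht⟩ := Infinite.exists_notMem_finset ({0, 1} : Finset K)
  simp only [Finset.mem_insert, Finset.mem_singleton, not_or] at ht
  exact ⟨t, ht.1, ht.2⟩

variable {ι : Type*} {v : ι → Fin 3 → K}

lemma GenPos.linearIndependent_sub (hv : GenPos v) {i j : ι} (hij : i ≠ j) :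
    LinearIndependent K ![v i, v j - v i] := by
  apply linearIndependent_pair (hv.ne_zero i)
  intro c hc
  apply hv.distinct j i (Ne.symm hij) (c + 1)
  rw [add_smul, one_smul, ← hc]
  abel

/-- a point on a line through two points of a family in general position -/
lemma line_point_zero (a b : Fin 3 → K) : a + (0 : K) • (b - a) = a := by simp

lemma line_point_one (a b : Fin 3 → K) : a + (1 : K) • (b - a) = b := by simp

/-- lines: a general point is not on the line through two points -/
lemma GenPos.exists_line [Infinite K] (hv : GenPos v) {i j : ι} (hij : i ≠ j) :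
    ∃ G : MvPolynomial (Fin 3) K, G ≠ 0 ∧ ∀ w : Fin 3 → K, eval w G ≠ 0 →
      ∀ F : MvPolynomial (Fin 3) K, F.IsHomogeneous 1 → eval (v i) F = 0 → eval (v j) F = 0 →
        eval w F = 0 → F = 0 := by
  have h1 : LinearIndependent K ![v i, v j] :=
    linearIndependent_pair (hv.ne_zero i) (hv.distinct j i (Ne.symm hij))
  obtain ⟨b, hb⟩ := exists_linearIndependent_snoc_of_lt_finrank h1 (by simp)
  obtain ⟨G, hG, hG'⟩ := exists_open_cond (K := K) (τ := Fin 3) (S := Fin 3)
    (fun t => ![fun a => C (v i a), fun a => C (v j a), X] t) (fun _ => LinearMap.id) 1 b (by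
      intro F hF h
      apply eq_zero_of_linearIndependent hF hb
      intro t
      have := h t
      fin_cases t
      · simpa using this
      · simpa using this
      · simpa using this)
  refine ⟨G, fun h => hG (by rw [h, map_zero]), fun w hw F hF hi hj hwF => hG' w hw F hF ?_⟩
  intro t
  fin_cases t
  · simpa using hi
  · simpa using hj
  · simpa using hwF

/-- the embedding of `Fin 3` into `Fin 5` skipping the first two -/
def skip₂ : Fin 3 ↪ Fin 5 := ⟨![2, 3, 4], by decide⟩

/-- the embedding of `Fin 6` into `Fin 7` skipping `1` -/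
def skip₁ : Fin 6 ↪ Fin 7 := ⟨![0, 2, 3, 4, 5, 6], by decide⟩

lemma GenPos.line_factor (hv : GenPos v) {i j k : ι} (hij : i ≠ j) (hik : i ≠ k) (hjk : j ≠ k)
    {l : MvPolynomial (Fin 3) K} (hl : l.IsHomogeneous 1) (hl0 : l ≠ 0) (hi : eval (v i) l = 0)
    (hj : eval (v j) l = 0) : eval (v k) l ≠ 0 := by
  intro hk
  apply hl0
  refine hv.line ⟨![i, j, k], ?_⟩ l hl ?_
  · intro a b hab
    fin_cases a <;> fin_cases b <;> simp_all
  · intro t
    fin_cases t
    · exact hi
    · exact hj
    · exact hk

/-- conics: for a general point there is no conic through it and five given points -/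
lemma GenPos.exists_conic [Infinite K] (hv : GenPos v) (e : Fin 5 ↪ ι) :
    ∃ G : MvPolynomial (Fin 3) K, G ≠ 0 ∧ ∀ w : Fin 3 → K, eval w G ≠ 0 →
      ∀ F : MvPolynomial (Fin 3) K, F.IsHomogeneous 2 → (∀ t, eval (v (e t)) F = 0) →
        eval w F = 0 → F = 0 := by
  obtain ⟨s, hs0, hs1⟩ := exists_ne_zero_ne_one K
  have he01 : e 0 ≠ e 1 := e.injective.ne (by decide)
  obtain ⟨G, hG, hG'⟩ := exists_open_cond (K := K) (τ := Fin 3) (S := Option (Fin 5))
    (fun o => o.elim X fun t a => C (v (e t) a)) (fun _ => LinearMap.id) 2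
    (v (e 0) + s • (v (e 1) - v (e 0))) (by
      intro F hF h
      have h1 : ∀ t, eval (v (e t)) F = 0 := by
        intro t
        simpa using h (some t)
      have h2 : eval (v (e 0) + s • (v (e 1) - v (e 0))) F = 0 := by
        have := h none
        simp only [Option.elim_none, eval_X] at this
        exact this
      have h3 := eval_line_eq_zero_of_eval₂ (a := v (e 0)) (u := v (e 1) - v (e 0)) hF
        zero_ne_one (Ne.symm hs0) (Ne.symm hs1) (by rw [line_point_zero]; exact h1 0)
        (by rw [line_point_one]; exact h1 1) h2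
      obtain ⟨l, Q, hl, hQ, hFlQ, hl0, hla, hlu⟩ :=
        exists_factor (hv.linearIndependent_sub he01) (n := 1) hF h3
      have hl1 : eval (v (e 1)) l = 0 := by
        rw [← line_point_one (v (e 0)) (v (e 1))]
        exact eval_line_eq_zero_of_linear hl hla hlu 1
      have hQ0 : Q = 0 := by
        refine hv.line (skip₂.trans e) Q hQ ?_
        intro t
        have h4 : ∀ t : Fin 5, t ≠ 0 → t ≠ 1 → eval (v (e t)) Q = 0 := by
          intro t ht0 ht1
          have h5 := h1 t
          rw [hFlQ, map_mul] at h5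
          exact (mul_eq_zero.mp h5).resolve_left (hv.line_factor he01 (e.injective.ne ht0.symm)
            (e.injective.ne ht1.symm) hl hl0 hla hl1)
        fin_cases t
        · exact h4 2 (by decide) (by decide)
        · exact h4 3 (by decide) (by decide)
        · exact h4 4 (by decide) (by decide)
      rw [hFlQ, hQ0, mul_zero])
  refine ⟨G, fun h => hG (by rw [h, map_zero]), fun w hw F hF h hwF => hG' w hw F hF ?_⟩
  rintro (_ | t)
  · simpa using hwF
  · simpa using h t

/-- cubics: for a general point there is no cubic through it and seven given points, singular at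
the first one of these -/
lemma GenPos.exists_cubic₁ [Infinite K] (hv : GenPos v) (e : Fin 7 ↪ ι) :
    ∃ G : MvPolynomial (Fin 3) K, G ≠ 0 ∧ ∀ w : Fin 3 → K, eval w G ≠ 0 →
      ∀ F : MvPolynomial (Fin 3) K, F.IsHomogeneous 3 → (∀ t, eval (v (e t)) F = 0) →
        eval w F = 0 → (∀ j, eval (v (e 0)) (pderiv j F) = 0) → F = 0 := by
  obtain ⟨s, hs0, hs1⟩ := exists_ne_zero_ne_one K
  have he01 : e 0 ≠ e 1 := e.injective.ne (by decide)
  obtain ⟨G, hG, hG'⟩ := exists_open_cond (K := K) (τ := Fin 3) (S := Option (Fin 7 ⊕ Fin 3))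
    (fun o => o.elim X fun t a => C (v (e (t.elim id fun _ => 0)) a))
    (fun o => o.elim LinearMap.id fun t => t.elim (fun _ => LinearMap.id)
      fun j => (pderiv j).toLinearMap) 3
    (v (e 0) + s • (v (e 1) - v (e 0))) (by
      intro F hF h
      have h1 : ∀ t, eval (v (e t)) F = 0 := by
        intro t
        simpa using h (some (Sum.inl t))
      have h1' : ∀ j, eval (v (e 0)) (pderiv j F) = 0 := by
        intro j
        simpa using h (some (Sum.inr j))
      have h2 : eval (v (e 0) + s • (v (e 1) - v (e 0))) F = 0 := by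
        have := h none
        simp only [Option.elim_none, eval_X] at this
        exact this
      have h3 := eval_line_eq_zero_of_eval₃ (a := v (e 0)) (u := v (e 1) - v (e 0)) hF
        zero_ne_one (Ne.symm hs0) (Ne.symm hs1) (by rw [line_point_zero]; exact h1 0)
        (by rw [line_point_one]; exact h1 1) h2 (by rw [line_point_zero]; exact h1')
      obtain ⟨l, Q, hl, hQ, hFlQ, hl0, hla, hlu⟩ :=
        exists_factor (hv.linearIndependent_sub he01) (n := 2) hF h3
      have hl1 : eval (v (e 1)) l = 0 := by
        rw [← line_point_one (v (e 0)) (v (e 1))]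
        exact eval_line_eq_zero_of_linear hl hla hlu 1
      have hQ0 : Q = 0 := by
        refine hv.conic (skip₁.trans e) Q hQ ?_
        intro t
        have h4 : ∀ t : Fin 7, t ≠ 0 → t ≠ 1 → eval (v (e t)) Q = 0 := by
          intro t ht0 ht1
          have h5 := h1 t
          rw [hFlQ, map_mul] at h5
          exact (mul_eq_zero.mp h5).resolve_left (hv.line_factor he01 (e.injective.ne ht0.symm)
            (e.injective.ne ht1.symm) hl hl0 hla hl1)
        fin_cases t
        · apply eval_eq_zero_of_gradient hl hl0 hla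
          rw [← hFlQ]
          exact h1'
        · exact h4 2 (by decide) (by decide)
        · exact h4 3 (by decide) (by decide)
        · exact h4 4 (by decide) (by decide)
        · exact h4 5 (by decide) (by decide)
        · exact h4 6 (by decide) (by decide)
      rw [hFlQ, hQ0, mul_zero])
  refine ⟨G, fun h => hG (by rw [h, map_zero]), fun w hw F hF h hwF h' => hG' w hw F hF ?_⟩
  rintro (_ | t | j)
  · simpa using hwF
  · simpa using h t
  · simpa using h' j

/-- there is a point on the line through the first two of seven points, different from these,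
such that no conic passes through it and the last five points -/
lemma GenPos.exists_point_on_line [Infinite K] (hv : GenPos v) (e : Fin 7 ↪ ι) :
    ∃ s : K, s ≠ 0 ∧ s ≠ 1 ∧ ∀ F : MvPolynomial (Fin 3) K, F.IsHomogeneous 2 →
      (∀ t : Fin 7, t ≠ 0 → t ≠ 1 → eval (v (e t)) F = 0) →
      eval (v (e 0) + s • (v (e 1) - v (e 0))) F = 0 → F = 0 := by
  obtain ⟨G, hG, hG'⟩ := exists_open_cond (K := K) (τ := Unit) (S := Fin 6)
    (fun t a => if t = 0 then C (v (e 0) a) + C (v (e 1) a - v (e 0) a) * X () else
      C (v (e (skip₁ t)) a)) (fun _ => LinearMap.id) 2 (fun _ => 0) (by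
      intro F hF h
      refine hv.conic (skip₁.trans e) F hF ?_
      intro t
      have := h t
      by_cases ht : t = 0
      · subst ht
        change eval (v (e 0)) F = 0
        simpa using this
      · simpa [ht] using this)
  have hG0 : G * (X () * (X () - C 1)) ≠ 0 := by
    refine mul_ne_zero (fun h => hG (by rw [h, map_zero])) (mul_ne_zero (X_ne_zero _) ?_)
    intro h
    have := congrArg (eval (fun _ => (0 : K))) h
    simp at this
  obtain ⟨x, hx⟩ : ∃ x, eval x (G * (X () * (X () - C 1))) ≠ 0 := by
    by_contra hcon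
    push Not at hcon
    exact hG0 (MvPolynomial.funext fun w => by rw [hcon w, map_zero])
  simp only [map_mul, map_sub, eval_X, eval_C, mul_ne_zero_iff, sub_ne_zero] at hx
  refine ⟨x (), hx.2.1, hx.2.2, fun F hF h h' => hG' x hx.1 F hF ?_⟩
  intro t
  by_cases ht : t = 0
  · subst ht
    simp only [if_true, map_add, map_mul, eval_C, eval_X, LinearMap.id_apply]
    have hvec : (fun i => v (e 0) i + (v (e 1) i - v (e 0) i) * x ()) =
        v (e 0) + x () • (v (e 1) - v (e 0)) := by
      ext i
      simp [mul_comm]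
    rw [hvec]
    exact h'
  · simp only [if_neg ht, eval_C, LinearMap.id_apply]
    apply h
    · fin_cases t <;> simp_all [skip₁]
    · fin_cases t <;> simp_all [skip₁]

/-- cubics: for a general point there is no cubic through it and seven given points, singular at
the new point -/
lemma GenPos.exists_cubic₂ [Infinite K] (hv : GenPos v) (e : Fin 7 ↪ ι) :
    ∃ G : MvPolynomial (Fin 3) K, G ≠ 0 ∧ ∀ w : Fin 3 → K, eval w G ≠ 0 →
      ∀ F : MvPolynomial (Fin 3) K, F.IsHomogeneous 3 → (∀ t, eval (v (e t)) F = 0) →
        eval w F = 0 → (∀ j, eval w (pderiv j F) = 0) → F = 0 := by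
  obtain ⟨s, hs0, hs1, hs⟩ := hv.exists_point_on_line e
  have he01 : e 0 ≠ e 1 := e.injective.ne (by decide)
  obtain ⟨G, hG, hG'⟩ := exists_open_cond (K := K) (τ := Fin 3) (S := Fin 7 ⊕ Option (Fin 3))
    (fun t => t.elim (fun t a => C (v (e t) a)) fun _ => X)
    (fun t => t.elim (fun _ => LinearMap.id) fun o => o.elim LinearMap.id
      fun j => (pderiv j).toLinearMap) 3
    (v (e 0) + s • (v (e 1) - v (e 0))) (by
      intro F hF h
      have h1 : ∀ t, eval (v (e t)) F = 0 := by
        intro t
        simpa using h (Sum.inl t)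
      have h1' : ∀ j, eval (v (e 0) + s • (v (e 1) - v (e 0))) (pderiv j F) = 0 := by
        intro j
        have := h (Sum.inr (some j))
        simp only [Sum.elim_inr, Option.elim_some, eval_X] at this
        exact this
      have h2 : eval (v (e 0) + s • (v (e 1) - v (e 0))) F = 0 := by
        have := h (Sum.inr none)
        simp only [Sum.elim_inr, Option.elim_none, eval_X] at this
        exact this
      have h3 := eval_line_eq_zero_of_eval₃ (a := v (e 0)) (u := v (e 1) - v (e 0)) hF
        hs0 hs1 zero_ne_one h2 (by rw [line_point_zero]; exact h1 0)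
        (by rw [line_point_one]; exact h1 1) h1'
      obtain ⟨l, Q, hl, hQ, hFlQ, hl0, hla, hlu⟩ :=
        exists_factor (hv.linearIndependent_sub he01) (n := 2) hF h3
      have hl1 : eval (v (e 1)) l = 0 := by
        rw [← line_point_one (v (e 0)) (v (e 1))]
        exact eval_line_eq_zero_of_linear hl hla hlu 1
      have hQ0 : Q = 0 := by
        refine hs Q hQ ?_ ?_
        · intro t ht0 ht1
          have h5 := h1 t
          rw [hFlQ, map_mul] at h5
          exact (mul_eq_zero.mp h5).resolve_left (hv.line_factor he01 (e.injective.ne ht0.symm)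
            (e.injective.ne ht1.symm) hl hl0 hla hl1)
        · apply eval_eq_zero_of_gradient hl hl0 (eval_line_eq_zero_of_linear hl hla hlu s)
          rw [← hFlQ]
          exact h1'
      rw [hFlQ, hQ0, mul_zero])
  refine ⟨G, fun h => hG (by rw [h, map_zero]), fun w hw F hF h hwF h' => hG' w hw F hF ?_⟩
  rintro (t | _ | j)
  · simpa using h t
  · simpa using hwF
  · simpa using h' j

/-- splitting an embedding into `Option ι` which hits `none` -/
lemma exists_embedding_of_eq_none {n : ℕ} (e : Fin (n + 1) ↪ Option ι) {t₀ : Fin (n + 1)}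
    (h : e t₀ = none) : ∃ e' : Fin n ↪ ι, ∀ t, e (t₀.succAbove t) = some (e' t) := by
  have h1 : ∀ t : Fin n, ∃ i, e (t₀.succAbove t) = some i := by
    intro t
    rw [← Option.ne_none_iff_exists']
    intro h2
    exact (Fin.succAbove_ne t₀ t) (e.injective (h2.trans h.symm))
  choose f hf using h1
  refine ⟨⟨f, fun a b hab => ?_⟩, hf⟩
  apply Fin.succAbove_right_injective (p := t₀)
  apply e.injective
  rw [hf, hf, hab]

lemma exists_embedding_of_forall_ne_none {n : ℕ} (e : Fin n ↪ Option ι)
    (h : ∀ t, e t ≠ none) : ∃ e' : Fin n ↪ ι, ∀ t, e t = some (e' t) := by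
  have h1 : ∀ t : Fin n, ∃ i, e t = some i := by
    intro t
    rw [← Option.ne_none_iff_exists']
    exact h t
  choose f hf using h1
  refine ⟨⟨f, fun a b hab => ?_⟩, hf⟩
  apply e.injective
  rw [hf, hf, hab]

/-- Adding a general point to a finite family of points in general position. -/
theorem GenPos.exists_extend [Infinite K] [Finite ι] (hv : GenPos v) :
    ∃ G : MvPolynomial (Fin 3) K, G ≠ 0 ∧ ∀ w : Fin 3 → K, eval w G ≠ 0 →
      GenPos (fun o : Option ι => o.elim w v) := by
  obtain ⟨G₁, hG₁, hG₁'⟩ := exists_forall_cond' (K := K) (τ := Fin 3)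
    (fun (i : ι) w => ∀ c : K, w ≠ c • v i ∧ v i ≠ c • w) (by
      intro i
      obtain ⟨l, hl, hl0, hli⟩ := exists_linear_form (v i)
      refine ⟨l, hl0, fun w hw c => ⟨?_, ?_⟩⟩
      · rintro rfl
        apply hw
        rw [eval_smul_of_isHomogeneous hl, hli, mul_zero]
      · intro h
        apply hw
        rw [h, eval_smul_of_isHomogeneous hl, pow_one, mul_eq_zero] at hli
        rcases hli with hc | hli
        · rw [hc, zero_smul] at h
          exact (hv.ne_zero i h).elim
        · exact hli)
  obtain ⟨G₂, hG₂, hG₂'⟩ := exists_forall_cond' (K := K) (τ := Fin 3)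
    (fun (c : {c : ι × ι // c.1 ≠ c.2}) w => ∀ F : MvPolynomial (Fin 3) K, F.IsHomogeneous 1 →
      eval (v c.1.1) F = 0 → eval (v c.1.2) F = 0 → eval w F = 0 → F = 0)
    (fun c => hv.exists_line c.2)
  obtain ⟨G₃, hG₃, hG₃'⟩ := exists_forall_cond' (K := K) (τ := Fin 3)
    (fun (e : Fin 5 ↪ ι) w => ∀ F : MvPolynomial (Fin 3) K, F.IsHomogeneous 2 →
      (∀ t, eval (v (e t)) F = 0) → eval w F = 0 → F = 0)
    (fun e => hv.exists_conic e)
  obtain ⟨G₄, hG₄, hG₄'⟩ := exists_forall_cond' (K := K) (τ := Fin 3)
    (fun (e : Fin 7 ↪ ι) w => ∀ F : MvPolynomial (Fin 3) K, F.IsHomogeneous 3 →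
      (∀ t, eval (v (e t)) F = 0) → eval w F = 0 →
      (∀ j, eval (v (e 0)) (pderiv j F) = 0) → F = 0)
    (fun e => hv.exists_cubic₁ e)
  obtain ⟨G₅, hG₅, hG₅'⟩ := exists_forall_cond' (K := K) (τ := Fin 3)
    (fun (e : Fin 7 ↪ ι) w => ∀ F : MvPolynomial (Fin 3) K, F.IsHomogeneous 3 →
      (∀ t, eval (v (e t)) F = 0) → eval w F = 0 →
      (∀ j, eval w (pderiv j F) = 0) → F = 0)
    (fun e => hv.exists_cubic₂ e)
  refine ⟨X 0 * G₁ * G₂ * G₃ * G₄ * G₅, mul_ne_zero (mul_ne_zero (mul_ne_zero (mul_ne_zero
    (mul_ne_zero (X_ne_zero 0) hG₁) hG₂) hG₃) hG₄) hG₅, ?_⟩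
  intro w hw
  simp only [map_mul, eval_X, mul_ne_zero_iff] at hw
  obtain ⟨⟨⟨⟨⟨h0, h1⟩, h2⟩, h3⟩, h4⟩, h5⟩ := hw
  replace h1 := hG₁' w h1
  replace h2 := hG₂' w h2
  replace h3 := hG₃' w h3
  replace h4 := hG₄' w h4
  replace h5 := hG₅' w h5
  refine ⟨?_, ?_, ?_, ?_, ?_⟩
  · rintro (_ | i)
    · intro h
      exact h0 (congrFun h 0)
    · exact hv.ne_zero i
  · rintro (_ | i) (_ | j) hij c
    · exact (hij rfl).elim
    · exact (h1 j c).1
    · exact (h1 i c).2
    · exact hv.distinct i j (fun h => hij (congrArg some h)) c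
  · intro e F hF h
    by_cases hnone : ∃ t₀, e t₀ = none
    · obtain ⟨t₀, ht₀⟩ := hnone
      obtain ⟨e', he'⟩ := exists_embedding_of_eq_none e ht₀
      have h6 : ∀ t, eval (v (e' t)) F = 0 := by
        intro t
        have := h (t₀.succAbove t)
        rw [he'] at this
        exact this
      have h7 := h t₀
      rw [ht₀] at h7
      exact h2 ⟨(e' 0, e' 1), e'.injective.ne (by decide)⟩ F hF (h6 0) (h6 1) h7
    · push Not at hnone
      obtain ⟨e', he'⟩ := exists_embedding_of_forall_ne_none e hnone
      refine hv.line e' F hF fun t => ?_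
      have := h t
      rw [he'] at this
      exact this
  · intro e F hF h
    by_cases hnone : ∃ t₀, e t₀ = none
    · obtain ⟨t₀, ht₀⟩ := hnone
      obtain ⟨e', he'⟩ := exists_embedding_of_eq_none e ht₀
      have h6 : ∀ t, eval (v (e' t)) F = 0 := by
        intro t
        have := h (t₀.succAbove t)
        rw [he'] at this
        exact this
      have h7 := h t₀
      rw [ht₀] at h7
      exact h3 e' F hF h6 h7
    · push Not at hnone
      obtain ⟨e', he'⟩ := exists_embedding_of_forall_ne_none e hnone
      refine hv.conic e' F hF fun t => ?_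
      have := h t
      rw [he'] at this
      exact this
  · intro e F hF h h'
    by_cases hnone : ∃ t₀, e t₀ = none
    · obtain ⟨t₀, ht₀⟩ := hnone
      obtain ⟨e', he'⟩ := exists_embedding_of_eq_none e ht₀
      have h6 : ∀ t, eval (v (e' t)) F = 0 := by
        intro t
        have := h (t₀.succAbove t)
        rw [he'] at this
        exact this
      have h7 := h t₀
      rw [ht₀] at h7
      by_cases ht : t₀ = 0
      · subst ht
        rw [ht₀] at h'
        exact h5 e' F hF h6 h7 h'
      · refine h4 e' F hF h6 h7 ?_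
        have h8 := he' 0
        rw [Fin.succAbove_ne_zero_zero ht] at h8
        rw [h8] at h'
        exact h'
    · push Not at hnone
      obtain ⟨e', he'⟩ := exists_embedding_of_forall_ne_none e hnone
      rw [he'] at h'
      refine hv.cubic e' F hF (fun t => ?_) h'
      have := h t
      rw [he'] at this
      exact this

end Pool.Agent.DelPezzo
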