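import Pool.Agent.DelPezzo.Coordinates

set_option autoImplicit false

universe u

namespace Pool.Agent.DelPezzo

open MvPolynomial

variable {K : Type u} [Field K]

/-- The condition that no nonzero form of degree `n` is killed by a finite family of functionals
`F ↦ (D s F)(P s)` is an open condition on the points `P s`. -/
lemma exists_open_cond {τ S : Type*} [Finite S] (P : S → Fin 3 → MvPolynomial τ K)
    (D : S → (MvPolynomial (Fin 3) K →ₗ[K] MvPolynomial (Fin 3) K)) (n : ℕ) (w₀ : τ → K)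
    (h₀ : ∀ F : MvPolynomial (Fin 3) K, F.IsHomogeneous n →
      (∀ s, eval (fun i => eval w₀ (P s i)) (D s F) = 0) → F = 0) :
    ∃ G : MvPolynomial τ K, eval w₀ G ≠ 0 ∧ ∀ w : τ → K, eval w G ≠ 0 →
      ∀ F : MvPolynomial (Fin 3) K, F.IsHomogeneous n →
      (∀ s, eval (fun i => eval w (P s i)) (D s F) = 0) → F = 0 := by
  classical
  have := Fintype.ofFinite S
  have hfin : Module.Finite K (homogeneousSubmodule (Fin 3) K n) :=
    Module.Finite.iff_fg.mpr (homogeneousSubmodule_fg (Fin 3) K n)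
  let β := Module.finBasis K (homogeneousSubmodule (Fin 3) K n)
  let N := Module.finrank K (homogeneousSubmodule (Fin 3) K n)
  let Λ : Matrix S (Fin N) (MvPolynomial τ K) :=
    Matrix.of fun s l => aeval (P s) (D s (β l : MvPolynomial (Fin 3) K))
  -- the evaluation of the matrix
  have hΛ : ∀ (w : τ → K) (c : Fin N → K) (s : S), (Λ.map (eval w)).mulVec c s =
      eval (fun i => eval w (P s i)) (D s ((β.equivFun.symm c : homogeneousSubmodule (Fin 3) K n) :
        MvPolynomial (Fin 3) K)) := by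
    intro w c s
    rw [Module.Basis.equivFun_symm_apply]
    simp only [Matrix.mulVec, dotProduct, Matrix.map_apply, Matrix.of_apply, Λ,
      Submodule.coe_sum, Submodule.coe_smul, map_sum, map_smul, smul_eval]
    refine Finset.sum_congr rfl fun l _ => ?_
    rw [mul_comm, aeval_def, hom_eval₂]
    congr 1
    rw [eval, coe_eval₂Hom]
    congr 1
    ext x
    simp
  have hinj₀ : Function.Injective (Λ.map (eval w₀)).mulVecLin := by
    rw [← LinearMap.ker_eq_bot, LinearMap.ker_eq_bot']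
    intro c hc
    have h1 := h₀ (β.equivFun.symm c : homogeneousSubmodule (Fin 3) K n)
      (β.equivFun.symm c).2 (fun s => by
        rw [← hΛ w₀ c s]
        exact congrFun hc s)
    have h2 : β.equivFun.symm c = 0 := Subtype.ext h1
    exact (LinearEquiv.map_eq_zero_iff _).mp h2
  obtain ⟨g, hg⟩ := LinearMap.exists_leftInverse_of_injective _ (LinearMap.ker_eq_bot.mpr hinj₀)
  let B : Matrix (Fin N) S K := LinearMap.toMatrix' g
  have hB : B * (Λ.map (eval w₀)) = 1 := by
    have h1 := congrArg LinearMap.toMatrix' hg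
    rw [LinearMap.toMatrix'_comp, LinearMap.toMatrix'_id, ← Matrix.toLin'_apply',
      LinearMap.toMatrix'_toLin'] at h1
    exact h1
  have hmap : ∀ w : τ → K, (B.map (C : K → MvPolynomial τ K) * Λ).map (eval w) =
      B * (Λ.map (eval w)) := by
    intro w
    rw [Matrix.map_mul, Matrix.map_map]
    congr 1
    ext a b
    simp
  refine ⟨(B.map (C : K → MvPolynomial τ K) * Λ).det, ?_, ?_⟩
  · rw [RingHom.map_det]
    change ((B.map (C : K → MvPolynomial τ K) * Λ).map (eval w₀)).det ≠ 0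
    rw [hmap, hB, Matrix.det_one]
    exact one_ne_zero
  · intro w hw F hF hFw
    rw [RingHom.map_det] at hw
    change ((B.map (C : K → MvPolynomial τ K) * Λ).map (eval w)).det ≠ 0 at hw
    rw [hmap] at hw
    have h1 : (Λ.map (eval w)).mulVec (β.equivFun ⟨F, hF⟩) = 0 := by
      ext s
      rw [hΛ, LinearEquiv.symm_apply_apply]
      exact hFw s
    have h2 : (B * (Λ.map (eval w))).mulVec (β.equivFun ⟨F, hF⟩) = 0 := by
      rw [← Matrix.mulVec_mulVec, h1, Matrix.mulVec_zero]
    have h3 := Matrix.eq_zero_of_mulVec_eq_zero hw h2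
    have h4 : (⟨F, hF⟩ : homogeneousSubmodule (Fin 3) K n) = 0 :=
      (LinearEquiv.map_eq_zero_iff _).mp h3
    exact congrArg Subtype.val h4

lemma exists_forall_cond {τ C : Type*} [Finite C] (Q : C → (τ → K) → Prop) (w₀ : τ → K)
    (h : ∀ c, ∃ G : MvPolynomial τ K, eval w₀ G ≠ 0 ∧ ∀ w, eval w G ≠ 0 → Q c w) :
    ∃ G : MvPolynomial τ K, eval w₀ G ≠ 0 ∧ ∀ w, eval w G ≠ 0 → ∀ c, Q c w := by
  have := Fintype.ofFinite C
  choose G hG1 hG2 using h
  refine ⟨∏ c, G c, ?_, fun w hw c => ?_⟩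
  · rw [map_prod]
    exact Finset.prod_ne_zero_iff.mpr fun c _ => hG1 c
  · rw [map_prod, Finset.prod_ne_zero_iff] at hw
    exact hG2 c w (hw c (Finset.mem_univ c))

lemma exists_forall_cond' {τ C : Type*} [Finite C] (Q : C → (τ → K) → Prop)
    (h : ∀ c, ∃ G : MvPolynomial τ K, G ≠ 0 ∧ ∀ w, eval w G ≠ 0 → Q c w) :
    ∃ G : MvPolynomial τ K, G ≠ 0 ∧ ∀ w, eval w G ≠ 0 → ∀ c, Q c w := by
  have := Fintype.ofFinite C
  choose G hG1 hG2 using h
  refine ⟨∏ c, G c, ?_, fun w hw c => ?_⟩
  · exact Finset.prod_ne_zero_iff.mpr fun c _ => hG1 c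
  · rw [map_prod, Finset.prod_ne_zero_iff] at hw
    exact hG2 c w (hw c (Finset.mem_univ c))

/-- being in general position is an open condition -/
lemma exists_open_genPos {τ ι : Type*} [Finite ι] (P : ι → Fin 3 → MvPolynomial τ K) (w₀ : τ → K)
    (h₀ : GenPos fun i a => eval w₀ (P i a)) :
    ∃ G : MvPolynomial τ K, eval w₀ G ≠ 0 ∧
      ∀ w : τ → K, eval w G ≠ 0 → GenPos fun i a => eval w (P i a) := by
  -- nonzero vectors
  obtain ⟨G₁, hG₁, hG₁'⟩ := exists_forall_cond
    (fun (i : ι) w => (fun a => eval w (P i a)) ≠ 0) w₀ (by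
      intro i
      obtain ⟨a, ha⟩ : ∃ a, eval w₀ (P i a) ≠ 0 := by
        by_contra hcon
        push Not at hcon
        exact h₀.ne_zero i (funext hcon)
      exact ⟨P i a, ha, fun w hw h => hw (congrFun h a)⟩)
  -- distinct points
  obtain ⟨G₂, hG₂, hG₂'⟩ := exists_forall_cond
    (fun (c : {c : ι × ι // c.1 ≠ c.2}) w => ∀ t : K,
      (fun a => eval w (P c.1.1 a)) ≠ t • (fun a => eval w (P c.1.2 a))) w₀ (by
      rintro ⟨⟨i, j⟩, hij⟩
      dsimp only at hij ⊢
      obtain ⟨a, b, hab⟩ : ∃ a b, eval w₀ (P i a) * eval w₀ (P j b) -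
          eval w₀ (P i b) * eval w₀ (P j a) ≠ 0 := by
        by_contra hcon
        push Not at hcon
        obtain ⟨b, hb⟩ : ∃ b, eval w₀ (P j b) ≠ 0 := by
          by_contra hcon
          push Not at hcon
          exact h₀.ne_zero j (funext hcon)
        apply h₀.distinct i j hij (eval w₀ (P i b) / eval w₀ (P j b))
        ext a
        rw [Pi.smul_apply, smul_eq_mul]
        field_simp
        linear_combination hcon a b
      refine ⟨P i a * P j b - P i b * P j a, ?_, ?_⟩
      · simpa using hab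
      · intro w hw t ht
        apply hw
        have h1 := congrFun ht a
        have h2 := congrFun ht b
        simp only [Pi.smul_apply, smul_eq_mul] at h1 h2
        simp only [map_sub, map_mul]
        rw [h1, h2]
        ring)
  -- lines
  obtain ⟨G₃, hG₃, hG₃'⟩ := exists_forall_cond
    (fun (e : Fin 3 ↪ ι) w => ∀ F : MvPolynomial (Fin 3) K, F.IsHomogeneous 1 →
      (∀ t, eval (fun a => eval w (P (e t) a)) F = 0) → F = 0) w₀ (by
      intro e
      exact exists_open_cond (fun t => P (e t)) (fun _ => LinearMap.id) 1 w₀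
        (fun F hF h => h₀.line e F hF h))
  -- conics
  obtain ⟨G₄, hG₄, hG₄'⟩ := exists_forall_cond
    (fun (e : Fin 6 ↪ ι) w => ∀ F : MvPolynomial (Fin 3) K, F.IsHomogeneous 2 →
      (∀ t, eval (fun a => eval w (P (e t) a)) F = 0) → F = 0) w₀ (by
      intro e
      exact exists_open_cond (fun t => P (e t)) (fun _ => LinearMap.id) 2 w₀
        (fun F hF h => h₀.conic e F hF h))
  -- cubics
  obtain ⟨G₅, hG₅, hG₅'⟩ := exists_forall_cond
    (fun (e : Fin 8 ↪ ι) w => ∀ F : MvPolynomial (Fin 3) K, F.IsHomogeneous 3 →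
      (∀ t, eval (fun a => eval w (P (e t) a)) F = 0) →
      (∀ j, eval (fun a => eval w (P (e 0) a)) (pderiv j F) = 0) → F = 0) w₀ (by
      intro e
      obtain ⟨G, hG, hG'⟩ := exists_open_cond
        (fun s : Fin 8 ⊕ Fin 3 => P (e (s.elim id fun _ => 0)))
        (fun s => s.elim (fun _ => LinearMap.id) fun j => (pderiv j).toLinearMap) 3 w₀
        (fun F hF h => h₀.cubic e F hF (fun t => h (Sum.inl t)) (fun j => h (Sum.inr j)))
      refine ⟨G, hG, fun w hw F hF h h' => hG' w hw F hF ?_⟩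
      rintro (t | j)
      · exact h t
      · exact h' j)
  refine ⟨G₁ * G₂ * G₃ * G₄ * G₅, ?_, ?_⟩
  · simp only [map_mul]
    exact mul_ne_zero (mul_ne_zero (mul_ne_zero (mul_ne_zero hG₁ hG₂) hG₃) hG₄) hG₅
  · intro w hw
    simp only [map_mul, mul_ne_zero_iff] at hw
    obtain ⟨⟨⟨⟨h1, h2⟩, h3⟩, h4⟩, h5⟩ := hw
    exact ⟨hG₁' w h1, fun i j hij c => hG₂' w h2 ⟨(i, j), hij⟩ c, hG₃' w h3, hG₄' w h4,
      hG₅' w h5⟩

end Pool.Agent.DelPezzo
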