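import Pool.Agent.DelPezzo.AffineBase

set_option autoImplicit false

universe u

open CategoryTheory AlgebraicGeometry Limits TopologicalSpace

namespace Pool.Agent.DelPezzo

variable {k : Type u} [Field k] (K : Type u) [Field K] [Algebra k K]
variable {X : Scheme.{u}} {sX : X ⟶ Spec (.of k)} {m : ℕ} {U : (Aff k m).Opens}

/-- The base change of a morphism defined on an open subset of affine space. -/
noncomputable def baseMap (sX : X ⟶ Spec (.of k)) (φ : U.toScheme ⟶ X)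
    (hφ : φ ≫ sX = U.ι ≫ Aff.toSpec k m) :
    (Aff.map k K m ⁻¹ᵁ U).toScheme ⟶ pullback sX (iSpec k K) :=
  pullback.lift ((Aff.map k K m ∣_ U) ≫ φ) ((Aff.map k K m ⁻¹ᵁ U).ι ≫ Aff.toSpec K m) (by
    rw [Category.assoc, Category.assoc, hφ, morphismRestrict_ι_assoc, (Aff.isPullback k K m).w])

variable (φ : U.toScheme ⟶ X) (hφ : φ ≫ sX = U.ι ≫ Aff.toSpec k m)

@[reassoc (attr := simp)]
lemma baseMap_fst : baseMap K sX φ hφ ≫ pullback.fst sX (iSpec k K) =
    (Aff.map k K m ∣_ U) ≫ φ := pullback.lift_fst _ _ _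

@[reassoc (attr := simp)]
lemma baseMap_snd : baseMap K sX φ hφ ≫ pullback.snd sX (iSpec k K) =
    (Aff.map k K m ⁻¹ᵁ U).ι ≫ Aff.toSpec K m := pullback.lift_snd _ _ _

lemma baseMap_isPullback :
    IsPullback (Aff.map k K m ∣_ U) (baseMap K sX φ hφ) φ (pullback.fst sX (iSpec k K)) := by
  have h1 : IsPullback (Aff.map k K m ∣_ U) ((Aff.map k K m ⁻¹ᵁ U).ι ≫ Aff.toSpec K m)
      (U.ι ≫ Aff.toSpec k m) (iSpec k K) :=
    (isPullback_morphismRestrict (Aff.map k K m) U).paste_vert (Aff.isPullback k K m)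
  rw [← hφ, ← baseMap_snd K φ hφ] at h1
  exact IsPullback.of_bot h1 (baseMap_fst K φ hφ).symm (IsPullback.of_hasPullback sX (iSpec k K))

lemma isDominant_baseMap [IsDominant φ] : IsDominant (baseMap K sX φ hφ) := by
  apply dense_range_of_isPullback (baseMap_isPullback K φ hφ) _ ‹_›
  exact (pullback.fst sX (iSpec k K)).isOpenMap

/-- the point of affine space with coordinates `a` -/
noncomputable def affPt {K : Type u} [Field K] {m : ℕ} (a : Fin m → K) : Aff K m :=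
  ⟨RingHom.ker (MvPolynomial.eval a), RingHom.ker_isPrime _⟩

lemma affPt_mem_basicOpen {K : Type u} [Field K] {m : ℕ} (a : Fin m → K)
    (F : MvPolynomial (Fin m) K) :
    affPt a ∈ PrimeSpectrum.basicOpen F ↔ MvPolynomial.eval a F ≠ 0 := Iff.rfl

/-- Coordinates for a rational map from affine space to the plane. -/
lemma exists_polynomials {K : Type u} [Field K] [Infinite K] {m : ℕ} {W : (Aff K m).Opens}
    (ρ : W.toScheme ⟶ P2 K) (hρ : ρ ≫ P2.toSpec K = W.ι ≫ Aff.toSpec K m)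
    (hdom : ∀ (n : ℕ) (F : MvPolynomial (Fin 3) K), 0 < n → F.IsHomogeneous n → F ≠ 0 →
      ∃ z, ρ z ∈ Proj.basicOpen (gr K) F) :
    ∃ (h : MvPolynomial (Fin m) K) (ψ : Fin 3 → MvPolynomial (Fin m) K), h ≠ 0 ∧
      (∀ (n : ℕ) (F : MvPolynomial (Fin 3) K), 0 < n → F.IsHomogeneous n → F ≠ 0 →
        MvPolynomial.aeval ψ F ≠ 0) ∧
      ∀ a : Fin m → K, MvPolynomial.eval a h ≠ 0 → ∃ (hW : affPt a ∈ W)
        (hne : (fun i => MvPolynomial.eval a (ψ i)) ≠ 0), ρ ⟨affPt a, hW⟩ = pt _ hne := by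
  -- the chart `x₀ ≠ 0`
  let W₀ : W.toScheme.Opens := ρ ⁻¹ᵁ Proj.basicOpen (gr K) (MvPolynomial.X 0)
  obtain ⟨z₀, hz₀⟩ := hdom 1 (MvPolynomial.X 0) zero_lt_one (X_mem_gr 0) (MvPolynomial.X_ne_zero 0)
  have hz₀' : W.ι z₀ ∈ W.ι ''ᵁ W₀ := ⟨z₀, hz₀, rfl⟩
  obtain ⟨_, ⟨_, ⟨h, rfl⟩, rfl⟩, hh1, hh2⟩ := PrimeSpectrum.isBasis_basic_opens.exists_subset_of_mem_open
    hz₀' (W.ι ''ᵁ W₀).isOpen
  have hh0 : h ≠ 0 := by
    rintro rfl
    exact hh1 (Ideal.zero_mem _)
  let B := Localization.Away h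
  let β : Spec (.of B) ⟶ Aff K m :=
    Spec.map (CommRingCat.ofHom (algebraMap (MvPolynomial (Fin m) K) B))
  have hβr : ∀ z : Aff K m, z ∈ Set.range β ↔ z ∈ PrimeSpectrum.basicOpen h := by
    intro z
    have := PrimeSpectrum.localization_away_comap_range B h
    exact Set.ext_iff.mp this z
  have hβW : Set.range β ⊆ Set.range W.ι := by
    intro z hz
    obtain ⟨y, -, hy⟩ := hh2 ((hβr z).mp hz)
    exact ⟨y, hy⟩
  let β' : Spec (.of B) ⟶ W.toScheme := IsOpenImmersion.lift W.ι β hβW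
  have hβ' : β' ≫ W.ι = β := IsOpenImmersion.lift_fac _ _ _
  have hρ' : (β' ≫ ρ) ≫ P2.toSpec K = Spec.map (CommRingCat.ofHom (algebraMap K B)) := by
    rw [Category.assoc, hρ, reassoc_of% hβ', ← Spec.map_comp, ← CommRingCat.ofHom_comp]
    rfl
  have hβx : ∀ z, (β' ≫ ρ) z ∈ Proj.basicOpen (gr K) (MvPolynomial.X 0) := by
    intro z
    have h1 : β z ∈ PrimeSpectrum.basicOpen h := (hβr _).mp ⟨z, rfl⟩
    obtain ⟨y, hy1, hy2⟩ := hh2 h1
    have h2 : β' z = y := by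
      apply W.ι.isOpenEmbedding.injective
      rw [← Scheme.Hom.comp_apply, hβ']
      exact hy2.symm
    rw [Scheme.Hom.comp_apply, h2]
    exact hy1
  obtain ⟨g, hg0, hg⟩ := exists_coordinates (β' ≫ ρ) hρ' hβx
  obtain ⟨N, ψ, hψ⟩ : ∃ (N : ℕ) (ψ : Fin 3 → MvPolynomial (Fin m) K), ∀ i,
      algebraMap (MvPolynomial (Fin m) K) B (ψ i) =
        algebraMap (MvPolynomial (Fin m) K) B (h ^ N) * g i := by
    obtain ⟨⟨_, N, rfl⟩, hb⟩ := IsLocalization.exist_integer_multiples_of_finite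
      (Submonoid.powers h) g
    choose ψ hψ using hb
    refine ⟨N, ψ, fun i => ?_⟩
    rw [hψ i, Algebra.smul_def]
  have hF : ∀ (n : ℕ) (F : MvPolynomial (Fin 3) K), F.IsHomogeneous n →
      algebraMap (MvPolynomial (Fin m) K) B (MvPolynomial.aeval ψ F) =
        algebraMap (MvPolynomial (Fin m) K) B (h ^ N) ^ n * MvPolynomial.aeval g F := by
    intro n F hF
    rw [MvPolynomial.aeval_def, MvPolynomial.hom_eval₂]
    have h1 : (fun i => algebraMap (MvPolynomial (Fin m) K) B (ψ i)) = fun i =>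
        algebraMap (MvPolynomial (Fin m) K) B (h ^ N) * g i := funext hψ
    rw [h1, eval₂_mul_of_isHomogeneous _ _ _ hF]
    rfl
  have hβeq : ∀ (z : Spec (.of B)) (w : W.toScheme), β z = W.ι w → β' z = w := by
    intro z w hzw
    apply W.ι.isOpenEmbedding.injective
    rw [← Scheme.Hom.comp_apply, hβ', hzw]
  have hu : IsUnit (algebraMap (MvPolynomial (Fin m) K) B (h ^ N)) := by
    rw [map_pow]
    exact (IsLocalization.Away.algebraMap_isUnit h).pow N
  refine ⟨h, ψ, hh0, ?_, ?_⟩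
  · intro n F hn hFh hF0 hcon
    obtain ⟨z, hz⟩ := hdom n F hn hFh hF0
    have hirr : IrreducibleSpace (Aff K m) := inferInstance
    obtain ⟨y, hy1, hy2⟩ := nonempty_preirreducible_inter
      (W.ι ''ᵁ (ρ ⁻¹ᵁ Proj.basicOpen (gr K) F)).isOpen (PrimeSpectrum.basicOpen h).isOpen
      ⟨W.ι z, ⟨z, hz, rfl⟩⟩ ⟨_, hh1⟩
    obtain ⟨w, hw1, hw2⟩ := hy1
    obtain ⟨z', hz'⟩ := (hβr y).mpr hy2
    have h1 : β' z' = w := hβeq z' w (hz'.trans hw2.symm)
    have h2 : (β' ≫ ρ) z' ∈ Proj.basicOpen (gr K) F := by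
      rw [Scheme.Hom.comp_apply, h1]
      exact hw1
    rw [hg n F hn hFh] at h2
    have h3 := hF n F hFh
    rw [hcon, map_zero] at h3
    have h4 : MvPolynomial.aeval g F = 0 := (hu.pow n).mul_right_eq_zero.mp h3.symm
    rw [h4] at h2
    exact h2 (Ideal.zero_mem _)
  · intro a ha
    obtain ⟨z', hz'⟩ := (hβr (affPt a)).mpr ((affPt_mem_basicOpen a h).mpr ha)
    have hW : affPt a ∈ W := by
      rw [← hz', ← hβ']
      exact (β' z').2
    have hψ0 : MvPolynomial.eval a (ψ 0) ≠ 0 := by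
      have h1 := hψ 0
      rw [hg0, mul_one] at h1
      have h2 : ψ 0 = h ^ N := IsLocalization.injective B
        (powers_le_nonZeroDivisors_of_noZeroDivisors hh0) h1
      rw [h2, map_pow]
      exact pow_ne_zero _ ha
    refine ⟨hW, fun h0 => hψ0 (congrFun h0 0), ?_⟩
    have h1 : β' z' = ⟨affPt a, hW⟩ := hβeq z' _ hz'
    rw [← h1, ← Scheme.Hom.comp_apply]
    apply eq_pt
    intro n F hn hFh hzF
    rw [hg n F hn hFh] at hzF
    have h3 : algebraMap (MvPolynomial (Fin m) K) B (MvPolynomial.aeval ψ F) ∉ z'.asIdeal := by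
      rw [hF n F hFh]
      intro hmem
      rcases z'.isPrime.mem_or_mem hmem with h4 | h4
      · exact z'.isPrime.ne_top (Ideal.eq_top_of_isUnit_mem _ h4 (hu.pow n))
      · exact hzF h4
    have h5 : MvPolynomial.aeval ψ F ∉ (β z').asIdeal := h3
    rw [hz'] at h5
    have h6 : MvPolynomial.eval a (MvPolynomial.aeval ψ F) ≠ 0 := h5
    rw [MvPolynomial.aeval_def, MvPolynomial.hom_eval₂] at h6
    convert h6 using 1
    rw [MvPolynomial.eval, MvPolynomial.coe_eval₂Hom]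
    congr 1
    ext c
    simp

end Pool.Agent.DelPezzo
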