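import Pool.Agent.DelPezzo.Defs

set_option autoImplicit false

universe u

open CategoryTheory AlgebraicGeometry Limits TopologicalSpace

namespace Pool.Agent.DelPezzo

variable {K : Type u} [Field K]

lemma eq_pt {v : Fin 3 → K} (hv : v ≠ 0) (x : P2 K)
    (h : ∀ (n : ℕ) (F : MvPolynomial (Fin 3) K), 0 < n → F.IsHomogeneous n →
      (x ∈ Proj.basicOpen (gr K) F → MvPolynomial.eval v F ≠ 0)) : x = pt v hv := by
  apply eq_pt_of_le
  apply homogeneousIdeal_le
  intro n F hF hFv
  rw [mem_ptIdeal_iff hF] at hFv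
  by_contra hne
  rcases Nat.eq_zero_or_pos n with rfl | hn
  · rw [← MvPolynomial.homogeneousComponent_eq_self hF, MvPolynomial.homogeneousComponent_zero,
      MvPolynomial.eval_C] at hFv
    rw [← MvPolynomial.homogeneousComponent_eq_self hF, MvPolynomial.homogeneousComponent_zero,
      hFv, map_zero] at hne
    exact hne (Ideal.zero_mem _)
  · exact h n F hn hF hne hFv

lemma exists_smul_of_pt_eq {v w : Fin 3 → K} (hv : v ≠ 0) (hw : w ≠ 0) (h : pt v hv = pt w hw) :
    ∃ c : K, v = c • w := by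
  obtain ⟨j, hj⟩ : ∃ j, w j ≠ 0 := by
    by_contra hcon
    push Not at hcon
    exact hw (funext hcon)
  refine ⟨v j / w j, ?_⟩
  ext i
  have h1 : (MvPolynomial.C (v j) * MvPolynomial.X i - MvPolynomial.C (v i) * MvPolynomial.X j :
      MvPolynomial (Fin 3) K).IsHomogeneous 1 :=
    ((MvPolynomial.isHomogeneous_X K i).C_mul _).sub ((MvPolynomial.isHomogeneous_X K j).C_mul _)
  have h2 : pt v hv ∉ Proj.basicOpen (gr K)
      (MvPolynomial.C (v j) * MvPolynomial.X i - MvPolynomial.C (v i) * MvPolynomial.X j) := by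
    rw [pt_mem_basicOpen hv h1]
    simp [mul_comm]
  rw [h, pt_mem_basicOpen hw h1] at h2
  simp only [map_sub, map_mul, MvPolynomial.eval_C, MvPolynomial.eval_X, ne_eq, not_not] at h2
  rw [Pi.smul_apply, smul_eq_mul]
  field_simp
  linear_combination -h2

lemma exists_linear_form (v : Fin 3 → K) : ∃ l : MvPolynomial (Fin 3) K,
    l.IsHomogeneous 1 ∧ l ≠ 0 ∧ MvPolynomial.eval v l = 0 := by
  by_cases h : v 0 = 0
  · exact ⟨MvPolynomial.X 0, MvPolynomial.isHomogeneous_X K 0, MvPolynomial.X_ne_zero 0, by simp [h]⟩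
  · refine ⟨MvPolynomial.C (v 0) * MvPolynomial.X 1 - MvPolynomial.C (v 1) * MvPolynomial.X 0,
      ((MvPolynomial.isHomogeneous_X K 1).C_mul _).sub
        ((MvPolynomial.isHomogeneous_X K 0).C_mul _), ?_, ?_⟩
    · intro h0
      have h1 := congrArg (MvPolynomial.eval ![0, 1, 0]) h0
      simp at h1
      exact h h1
    · simp [mul_comm]

lemma exists_mem_basicOpen_and_forall_ne [Infinite K] {ι : Type*} [Finite ι] (v : ι → Fin 3 → K)
    (hv : ∀ i, v i ≠ 0) {n : ℕ} (hn : 0 < n) {F : MvPolynomial (Fin 3) K} (hF : F.IsHomogeneous n)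
    (hF0 : F ≠ 0) : ∃ (w : Fin 3 → K) (hw : w ≠ 0), pt w hw ∈ Proj.basicOpen (gr K) F ∧
      ∀ i, pt w hw ≠ pt (v i) (hv i) := by
  have := Fintype.ofFinite ι
  choose l hl1 hl2 hl3 using fun i => exists_linear_form (v i)
  have hG : F * ∏ i, l i ≠ 0 := mul_ne_zero hF0 (Finset.prod_ne_zero_iff.mpr fun i _ => hl2 i)
  obtain ⟨w, hw⟩ : ∃ w, MvPolynomial.eval w (F * ∏ i, l i) ≠ 0 := by
    by_contra hcon
    push Not at hcon
    exact hG (MvPolynomial.funext fun w => by rw [hcon w, map_zero])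
  rw [map_mul, map_prod, mul_ne_zero_iff, Finset.prod_ne_zero_iff] at hw
  have hw0 : w ≠ 0 := by
    rintro rfl
    apply hw.1
    have h1 := MvPolynomial.homogeneousComponent_zero (σ := Fin 3) (R := K) F
    rw [MvPolynomial.homogeneousComponent_of_mem hF, if_neg hn.ne] at h1
    have h2 : MvPolynomial.coeff 0 F = 0 := by
      have := congrArg (MvPolynomial.coeff 0) h1
      simpa using this.symm
    rw [← MvPolynomial.constantCoeff_eq] at h2
    rw [← MvPolynomial.eval_zero] at h2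
    exact h2
  refine ⟨w, hw0, (pt_mem_basicOpen hw0 hF).mpr hw.1, ?_⟩
  intro i hi
  have h1 : pt (v i) (hv i) ∉ Proj.basicOpen (gr K) (l i) := by
    rw [pt_mem_basicOpen _ (hl1 i)]
    simp [hl3 i]
  rw [← hi, pt_mem_basicOpen _ (hl1 i)] at h1
  exact h1 (hw.2 i (Finset.mem_univ i))

end Pool.Agent.DelPezzo
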