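import Pool.Agent.DelPezzo.WeilDensity

set_option autoImplicit false

universe u

open CategoryTheory AlgebraicGeometry Limits TopologicalSpace

namespace Pool.Agent.DelPezzo

section iso

variable {X Y : Scheme.{u}} (b : X ⟶ Y) (V : Y.Opens) [IsIso (b ∣_ V)]

omit [IsIso (b ∣_ V)] in
lemma morphismRestrict_ι_apply (x : (b ⁻¹ᵁ V).toScheme) :
    V.ι ((b ∣_ V) x) = b ((b ⁻¹ᵁ V).ι x) := by
  rw [← Scheme.Hom.comp_apply, morphismRestrict_ι, Scheme.Hom.comp_apply]

lemma exists_preimage_of_isIso (y : Y) (hy : y ∈ V) : ∃ z, b z = y := by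
  obtain ⟨z, hz⟩ := (b ∣_ V).homeomorph.surjective (⟨y, hy⟩ : V.toScheme)
  refine ⟨(b ⁻¹ᵁ V).ι z, ?_⟩
  rw [← Scheme.Hom.comp_apply, ← morphismRestrict_ι, Scheme.Hom.comp_apply]
  have hz' : (b ∣_ V) z = (⟨y, hy⟩ : V.toScheme) := hz
  rw [hz']
  rfl

lemma eq_of_isIso (z z' : X) (h : b z = b z') (hV : b z ∈ V) : z = z' := by
  have hV' : b z' ∈ V := h ▸ hV
  let x : (b ⁻¹ᵁ V).toScheme := ⟨z, hV⟩
  let x' : (b ⁻¹ᵁ V).toScheme := ⟨z', hV'⟩
  have h1 : (b ∣_ V) x = (b ∣_ V) x' := by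
    apply V.ι.isOpenEmbedding.injective
    rw [morphismRestrict_ι_apply, morphismRestrict_ι_apply]
    exact h
  have h2 := (b ∣_ V).homeomorph.injective h1
  exact congrArg Subtype.val h2

end iso

section

variable {k : Type u} [Field k] (K : Type u) [Field K] [Algebra k K]
variable {X : Scheme.{u}} {sX : X ⟶ Spec (.of k)} {m : ℕ} {U : (Aff k m).Opens}
variable (φ : U.toScheme ⟶ X) (hφ : φ ≫ sX = U.ι ≫ Aff.toSpec k m)
variable {L : Type u} [Field L] [Algebra k L] (p : Fin m → L)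

/-- the `L`-point of affine space with coordinates `p` -/
noncomputable def affL : Spec (.of L) ⟶ Aff k m :=
  Spec.map (CommRingCat.ofHom (MvPolynomial.aeval p : MvPolynomial (Fin m) k →ₐ[k] L).toRingHom)

lemma affL_toSpec : affL (k := k) p ≫ Aff.toSpec k m =
    Spec.map (CommRingCat.ofHom (algebraMap k L)) := by
  rw [affL, ← Spec.map_comp, ← CommRingCat.ofHom_comp]
  congr 2
  ext a
  simp

variable {K}

lemma spec_comp_affL (σ : L →ₐ[k] K) : Spec.map (CommRingCat.ofHom σ.toRingHom) ≫ affL (k := k) p =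
    Spec.map (CommRingCat.ofHom (MvPolynomial.eval (fun i => σ (p i)))) ≫ Aff.map k K m := by
  rw [affL, ← Spec.map_comp, ← Spec.map_comp, ← CommRingCat.ofHom_comp, ← CommRingCat.ofHom_comp]
  congr 2
  apply MvPolynomial.ringHom_ext
  · intro a
    simp
  · intro i
    simp

lemma spec_eval_apply (a : Fin m → K) (s : Spec (.of K)) :
    (Spec.map (CommRingCat.ofHom (MvPolynomial.eval a)) : Spec (.of K) ⟶ Aff K m) s = affPt a := by
  apply PrimeSpectrum.ext
  have hs : s.asIdeal = (⊥ : Ideal K) := by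
    have := s.isPrime
    exact (Ideal.eq_bot_or_top (K := K) s.asIdeal).resolve_right this.ne_top
  change Ideal.comap (MvPolynomial.eval a) s.asIdeal = RingHom.ker (MvPolynomial.eval a)
  rw [hs]
  rfl

lemma affL_mem (σ : L →ₐ[k] K) (h : affPt (fun i => σ (p i)) ∈ (Aff.map k K m ⁻¹ᵁ U))
    (t : Spec (.of L)) : affL (k := k) p t ∈ U := by
  have s : Spec (.of K) := IsLocalRing.closedPoint K
  have ht : t = Spec.map (CommRingCat.ofHom σ.toRingHom) s := Subsingleton.elim _ _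
  rw [ht, ← Scheme.Hom.comp_apply, spec_comp_affL, Scheme.Hom.comp_apply, spec_eval_apply]
  exact h

/-- the `L`-point of `U` with coordinates `p` -/
noncomputable def affU (hU : ∀ t : Spec (.of L), affL (k := k) p t ∈ U) :
    Spec (.of L) ⟶ U.toScheme :=
  IsOpenImmersion.lift U.ι (affL (k := k) p) (by
    rintro _ ⟨t, rfl⟩
    rw [Scheme.Opens.range_ι]
    exact hU t)

@[reassoc (attr := simp)]
lemma affU_ι (hU : ∀ t : Spec (.of L), affL (k := k) p t ∈ U) :
    affU p hU ≫ U.ι = affL (k := k) p := IsOpenImmersion.lift_fac _ _ _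

include hφ in
lemma affU_comp (hU : ∀ t : Spec (.of L), affL (k := k) p t ∈ U) :
    (affU p hU ≫ φ) ≫ sX = Spec.map (CommRingCat.ofHom (algebraMap k L)) := by
  rw [Category.assoc, hφ, affU_ι_assoc, affL_toSpec]

/-- the conjugates of an `L`-point in terms of coordinates -/
lemma conjPt_affU (hU : ∀ t : Spec (.of L), affL (k := k) p t ∈ U) (σ : L →ₐ[k] K)
    (h : affPt (fun i => σ (p i)) ∈ (Aff.map k K m ⁻¹ᵁ U)) (s : Spec (.of K)) :
    conjPt K sX (affU p hU ≫ φ) (affU_comp φ hφ p hU) σ s =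
      baseMap K sX φ hφ ⟨affPt (fun i => σ (p i)), h⟩ := by
  have hr : Set.range (Spec.map (CommRingCat.ofHom (MvPolynomial.eval (fun i => σ (p i)))) :
      Spec (.of K) ⟶ Aff K m) ⊆ Set.range (Aff.map k K m ⁻¹ᵁ U).ι := by
    rintro _ ⟨t, rfl⟩
    rw [Scheme.Opens.range_ι, spec_eval_apply]
    exact h
  let κ : Spec (.of K) ⟶ (Aff.map k K m ⁻¹ᵁ U).toScheme := IsOpenImmersion.lift _ _ hr
  have hκ : κ ≫ (Aff.map k K m ⁻¹ᵁ U).ι =
      Spec.map (CommRingCat.ofHom (MvPolynomial.eval (fun i => σ (p i)))) :=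
    IsOpenImmersion.lift_fac _ _ _
  have h1 : conjPt K sX (affU p hU ≫ φ) (affU_comp φ hφ p hU) σ = κ ≫ baseMap K sX φ hφ := by
    apply pullback.hom_ext
    · rw [conjPt_fst, Category.assoc, baseMap_fst, ← Category.assoc, ← Category.assoc]
      congr 1
      rw [← cancel_mono U.ι, Category.assoc, Category.assoc, affU_ι, spec_comp_affL,
        morphismRestrict_ι, reassoc_of% hκ]
    · rw [conjPt_snd, Category.assoc, baseMap_snd, reassoc_of% hκ, ← Spec.map_comp,
        ← CommRingCat.ofHom_comp]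
      have : (MvPolynomial.eval (fun i => σ (p i))).comp MvPolynomial.C = RingHom.id K := by
        ext a
        simp
      rw [this, CommRingCat.ofHom_id, Spec.map_id]
  rw [h1, Scheme.Hom.comp_apply]
  congr 1
  apply (Aff.map k K m ⁻¹ᵁ U).ι.isOpenEmbedding.injective
  rw [← Scheme.Hom.comp_apply, hκ, spec_eval_apply]
  rfl

end

end Pool.Agent.DelPezzo
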