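import Pool.Agent.DelPezzo.Fiber

set_option autoImplicit false

universe u

open CategoryTheory AlgebraicGeometry Limits TopologicalSpace TensorProduct

namespace Pool.Agent.DelPezzo

/-- The kernel of a morphism from a reduced scheme is a radical ideal sheaf. -/
lemma ker_eq_vanishingIdeal {X Y : Scheme.{u}} (f : X ⟶ Y) [QuasiCompact f] [IsReduced X] :
    f.ker = Scheme.IdealSheafData.vanishingIdeal f.ker.support := by
  rw [Scheme.IdealSheafData.vanishingIdeal_support]
  apply le_antisymm (Scheme.IdealSheafData.le_radical _)
  intro U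
  rw [Scheme.IdealSheafData.radical_ideal, Scheme.Hom.ker_apply]
  have h : (⊥ : Ideal Γ(X, f ⁻¹ᵁ U.1)).IsRadical := by
    rw [← Ideal.radical_eq_iff]
    exact nilradical_eq_zero Γ(X, f ⁻¹ᵁ U.1)
  exact h.comap (f.app U.1).hom

variable {k : Type u} [Field k] (K : Type u) [Field K] [Algebra k K]
variable {X : Scheme.{u}} (sX : X ⟶ Spec (.of k))

lemma comap_vanishingIdeal_singleton (x : X) (hx : IsClosed ({x} : Set X))
    (hsep : IsSeparablePoint sX x) (hfin : 0 < pointDegree sX x) :
    (Scheme.IdealSheafData.vanishingIdeal ⟨{x}, hx⟩).comap (pullback.fst sX (iSpec k K)) =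
      Scheme.IdealSheafData.vanishingIdeal
        ((⟨{x}, hx⟩ : Closeds X).preimage (pullback.fst sX (iSpec k K)).continuous) := by
  let := (residueHom sX x).toAlgebra
  have hfin' : Module.Finite k (X.residueField x) := Module.finite_of_finrank_pos hfin
  have hsep' : Algebra.IsSeparable k (X.residueField x) := hsep
  have hcl : IsClosedImmersion (X.fromSpecResidueField x) :=
    isClosed_singleton_iff_isClosedImmersion.mp hx
  let i := X.fromSpecResidueField x
  have hi : Spec.map (CommRingCat.ofHom (algebraMap k (X.residueField x))) = i ≫ sX :=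
    spec_residueHom sX x
  have h1 : Scheme.IdealSheafData.vanishingIdeal ⟨{x}, hx⟩ = i.ker := by
    rw [ker_eq_vanishingIdeal i]
    congr 1
    ext1
    rw [Scheme.Hom.support_ker, Scheme.range_fromSpecResidueField]
    exact hx.closure_eq.symm
  -- the base change of `i`
  have hpb := conjAll_isPullback K sX (L := X.residueField x) i hi.symm
  let γ := conjAll K sX (L := X.residueField x) i hi.symm
  have hγ : IsClosedImmersion γ := MorphismProperty.of_isPullback hpb inferInstance
  have hu : Algebra.FormallyUnramified k (X.residueField x) :=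
    (Algebra.FormallyUnramified.iff_isSeparable k (X.residueField x)).mpr hsep'
  have hred : _root_.IsReduced (K ⊗[k] X.residueField x) :=
    Algebra.FormallyUnramified.isReduced_of_field K _
  have h2 : (i.ker).comap (pullback.fst sX (iSpec k K)) = γ.ker := by
    rw [← Scheme.IdealSheafData.ker_fst_of_isClosedImmersion i (pullback.fst sX (iSpec k K)),
      ← Scheme.Hom.ker_comp_of_isIso (hpb.flip.isoPullback.hom)]
    congr 1
    exact hpb.flip.isoPullback_hom_fst
  have h3 : i.ker.support = ⟨{x}, hx⟩ := by
    rw [← h1, support_vanishingIdeal]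
  rw [h1, h2, ker_eq_vanishingIdeal γ, ← h2, Scheme.IdealSheafData.support_comap, h3]

lemma isClosed_finset {X : Scheme.{u}} (M : Finset X) (hM : ∀ x ∈ M, IsClosed ({x} : Set X)) :
    IsClosed (M : Set X) := by
  have : (M : Set X) = ⋃ x ∈ M, {x} := by
    ext y
    simp
  rw [this]
  exact isClosed_biUnion_finset hM

lemma comap_vanishingIdeal_finset (M : Finset X) (hM : ∀ x ∈ M, IsClosed ({x} : Set X))
    (hsep : ∀ x ∈ M, IsSeparablePoint sX x) (hfin : ∀ x ∈ M, 0 < pointDegree sX x) :
    (Scheme.IdealSheafData.vanishingIdeal ⟨M, isClosed_finset M hM⟩).comap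
      (pullback.fst sX (iSpec k K)) = Scheme.IdealSheafData.vanishingIdeal
        ((⟨M, isClosed_finset M hM⟩ : Closeds X).preimage
          (pullback.fst sX (iSpec k K)).continuous) := by
  classical
  induction M using Finset.induction_on with
  | empty =>
    have h1 : (⟨((∅ : Finset X) : Set X), isClosed_finset ∅ hM⟩ : Closeds X) = ⊥ := by
      ext y
      simp
    have h2 : (⊥ : Closeds X).preimage (pullback.fst sX (iSpec k K)).continuous = ⊥ := by
      ext y
      simp
    rw [h1, h2, Scheme.IdealSheafData.vanishingIdeal_bot, Scheme.IdealSheafData.vanishingIdeal_bot,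
      Scheme.IdealSheafData.comap_top]
  | insert a s ha ih =>
    have hs : ∀ x ∈ s, IsClosed ({x} : Set X) := fun x hx => hM x (Finset.mem_insert_of_mem hx)
    have ha' : IsClosed ({a} : Set X) := hM a (Finset.mem_insert_self a s)
    have h1 : (⟨((insert a s : Finset X) : Set X), isClosed_finset _ hM⟩ : Closeds X) =
        ⟨{a}, ha'⟩ ⊔ ⟨(s : Set X), isClosed_finset s hs⟩ := by
      ext y
      simp
    have h2 : (⟨((insert a s : Finset X) : Set X), isClosed_finset _ hM⟩ : Closeds X).preimage
        (pullback.fst sX (iSpec k K)).continuous =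
        (⟨{a}, ha'⟩ : Closeds X).preimage (pullback.fst sX (iSpec k K)).continuous ⊔
        (⟨(s : Set X), isClosed_finset s hs⟩ : Closeds X).preimage
          (pullback.fst sX (iSpec k K)).continuous := by
      rw [h1]
      ext y
      simp
    rw [h2, h1, ← vanishingIdeal_mul_of_disjoint, ← vanishingIdeal_mul_of_disjoint, comap_mul,
      comap_vanishingIdeal_singleton K sX a ha' (hsep a (Finset.mem_insert_self a s))
        (hfin a (Finset.mem_insert_self a s)),
      ih hs (fun x hx => hsep x (Finset.mem_insert_of_mem hx))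
        (fun x hx => hfin x (Finset.mem_insert_of_mem hx))]
    · rintro y hy hy'
      have h3 : pullback.fst sX (iSpec k K) y = a := hy
      have h4 : pullback.fst sX (iSpec k K) y ∈ s := hy'
      rw [h3] at h4
      exact ha h4
    · rintro y hy hy'
      have h3 : y = a := hy
      have h4 : y ∈ s := hy'
      rw [h3] at h4
      exact ha h4

end Pool.Agent.DelPezzo
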