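import Pool.Agent.DelPezzo.Existence

set_option autoImplicit false

universe u

namespace Pool.Agent.DelPezzo

open MvPolynomial

variable {k : Type u} [Field k] {K : Type u} [Field K] [Algebra k K]

/-- The matrix of the conjugates of a basis is invertible. -/
lemma isUnit_conj_matrix {L : Type u} [Field L] [Algebra k L] {n : ℕ}
    (ε : Fin n ≃ (L →ₐ[k] K)) (b : Module.Basis (Fin n) k L) :
    IsUnit (Matrix.of fun s l => ε s (b l)) := by
  rw [← Matrix.linearIndependent_rows_iff_isUnit]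
  have h1 := linearIndependent_algHom_toLinearMap k L K
  rw [Fintype.linearIndependent_iff]
  intro g hg
  have h2 : LinearIndependent K (fun s => (ε s).toLinearMap) := h1.comp ε ε.injective
  rw [Fintype.linearIndependent_iff] at h2
  apply h2 g
  apply b.ext
  intro l
  have h3 := congrFun hg l
  simpa using h3

/-- Zariski density of the tuples of conjugates. -/
lemma exists_conj_eval_ne_zero [Infinite k] {J : Type} [Finite J] (n : J → ℕ)
    (L : J → Type u) [∀ c, Field (L c)] [∀ c, Algebra k (L c)]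
    (hn : ∀ c, Module.finrank k (L c) = n c) (hn0 : ∀ c, 0 < n c)
    (ε : ∀ c, Fin (n c) ≃ (L c →ₐ[k] K)) {m : ℕ}
    (Φ : MvPolynomial ((Σ c, Fin (n c)) × Fin m) K) (a₀ : (Σ c, Fin (n c)) × Fin m → K)
    (ha₀ : eval a₀ Φ ≠ 0) :
    ∃ p : ∀ c, Fin m → L c, eval (fun x => ε x.1.1 x.1.2 (p x.1.1 x.2)) Φ ≠ 0 := by
  classical
  have hfin : ∀ c, Module.Finite k (L c) := fun c =>
    Module.finite_of_finrank_pos (by rw [hn c]; exact hn0 c)
  let b : ∀ c, Module.Basis (Fin (n c)) k (L c) := fun c => Module.finBasisOfFinrankEq k (L c) (hn c)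
  let M : ∀ c, Matrix (Fin (n c)) (Fin (n c)) K := fun c => Matrix.of fun s l => ε c s (b c l)
  have hM : ∀ c, IsUnit (M c) := fun c => isUnit_conj_matrix (ε c) (b c)
  let Φ' : MvPolynomial ((Σ c, Fin (n c)) × Fin m) K :=
    aeval (fun x => ∑ l, C (M x.1.1 x.1.2 l) * X (⟨x.1.1, l⟩, x.2)) Φ
  have hΦ' : ∀ T, eval T Φ' = eval (fun x => ∑ l, M x.1.1 x.1.2 l * T (⟨x.1.1, l⟩, x.2)) Φ := by
    intro T
    rw [← coe_aeval_eq_eval, ← coe_aeval_eq_eval, RingHom.coe_coe, RingHom.coe_coe]
    rw [← AlgHom.comp_apply, comp_aeval]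
    congr 2
    ext x
    simp
  have hΦ'0 : Φ' ≠ 0 := by
    intro h0
    have h1 : ∀ (c : J) (j : Fin m), ∃ T : Fin (n c) → K, (M c).mulVec T =
        fun s => a₀ (⟨c, s⟩, j) := fun c j =>
      (Matrix.mulVec_surjective_iff_isUnit.mpr (hM c)) _
    choose T hT using h1
    apply ha₀
    have h2 := hΦ' (fun x => T x.1.1 x.2 x.1.2)
    rw [h0, map_zero] at h2
    rw [h2]
    have h3 : (fun x : (Σ c, Fin (n c)) × Fin m =>
        ∑ l, M x.1.1 x.1.2 l * T x.1.1 x.2 l) = a₀ := by
      ext x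
      exact congrFun (hT x.1.1 x.2) x.1.2
    exact congrArg (fun f => eval f Φ) h3.symm
  obtain ⟨t, ht⟩ : ∃ t : (Σ c, Fin (n c)) × Fin m → k, eval (fun x => algebraMap k K (t x)) Φ' ≠ 0 := by
    by_contra hcon
    push Not at hcon
    apply hΦ'0
    apply MvPolynomial.funext_set (fun _ => Set.range (algebraMap k K))
      (fun _ => Set.infinite_range_of_injective (algebraMap k K).injective)
    intro x hx
    choose t ht using fun i => hx i (Set.mem_univ i)
    have hxt : x = fun i => algebraMap k K (t i) := funext fun i => (ht i).symm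
    rw [hxt, hcon t, map_zero]
  refine ⟨fun c j => ∑ l, t (⟨c, l⟩, j) • b c l, ?_⟩
  rw [hΦ'] at ht
  convert ht using 2
  congr 1
  ext x
  rw [map_sum]
  refine Finset.sum_congr rfl fun l _ => ?_
  rw [map_smul, Algebra.smul_def, mul_comm]
  rfl

end Pool.Agent.DelPezzo
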